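import Pool.Agent.Run7.h668.Walk

/-!
# Arrangements of planes all of which are visible from below

`A : Arr ι` is a finite family of affine functions on the plane.  We count the vertices of level
`k` (`A.V k`), the order-`k` regions (`A.Reg k`) and the pairs of level at most two.
-/

namespace Run7.h668

open Finset

open scoped Classical

noncomputable section

/-- A family of affine functions `(x, y) ↦ a i * x + b i * y + c i`. -/
structure Arr (ι : Type*) where
  /-- coefficient of the first coordinate -/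
  a : ι → ℝ
  /-- coefficient of the second coordinate -/
  b : ι → ℝ
  /-- constant coefficient -/
  c : ι → ℝ

namespace Arr

variable {ι : Type*} (A : Arr ι)

/-- The value of the `i`-th affine function. -/
def f (i : ι) (p : ℝ × ℝ) : ℝ := A.a i * p.1 + A.b i * p.2 + A.c i

/-- The linear part of the `i`-th affine function. -/
def sl (i : ι) (v : ℝ × ℝ) : ℝ := A.a i * v.1 + A.b i * v.2

theorem f_add (i : ι) (p v : ℝ × ℝ) (t : ℝ) : A.f i (p + t • v) = A.f i p + A.sl i v * t := by
  simp only [f, sl, Prod.fst_add, Prod.snd_add, Prod.smul_fst, Prod.smul_snd, smul_eq_mul]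
  ring

theorem sl_neg (i : ι) (v : ℝ × ℝ) : A.sl i (-v) = -A.sl i v := by
  simp only [sl, Prod.fst_neg, Prod.snd_neg]
  ring

/-- The determinant of three planes. -/
def det (i j l : ι) : ℝ := (A.a i - A.a j) * (A.b l - A.b j) - (A.a l - A.a j) * (A.b i - A.b j)

variable [Fintype ι]

/-- The planes strictly below height `h` at `p`. -/
def below (p : ℝ × ℝ) (h : ℝ) : Finset ι := univ.filter (fun z => A.f z p < h)

/-- The planes at height `h` at `p`. -/
def tie (p : ℝ × ℝ) (h : ℝ) : Finset ι := univ.filter (fun z => A.f z p = h)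

/-- The vertices of level `k`. -/
def V (k : ℕ) : Finset (Finset ι) :=
  univ.filter (fun T => T.card = 3 ∧ ∃ p h, A.tie p h = T ∧ (A.below p h).card = k)

/-- The point `p` is in the closed region of `R`. -/
def InReg (R : Finset ι) (p : ℝ × ℝ) : Prop := ∀ i ∈ R, ∀ j, j ∉ R → A.f i p ≤ A.f j p

/-- The regions of order `k`. -/
def Reg (k : ℕ) : Finset (Finset ι) :=
  univ.filter (fun R => R.card = k ∧ ∃ p, A.InReg R p)

/-- The general position and visibility assumptions. -/
structure Good (D : Finset ι) : Prop where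
  hb : Function.Injective A.b
  h4 : ∀ p h, (A.tie p h).card ≤ 3
  h3 : ∀ i j l, i ≠ j → j ≠ l → i ≠ l → ∀ p, A.f i p = A.f j p → A.f j p = A.f l p →
    A.det i j l ≠ 0
  vis : ∀ i, ∃ p, ∀ j, j ≠ i → A.f i p < A.f j p
  far : ∀ i, i ∉ D → ∀ v : ℝ × ℝ, v ≠ 0 → 3 ≤ (D.filter (fun z => A.sl z v < A.sl i v)).card

variable {A} {D : Finset ι}

theorem mem_tie {p : ℝ × ℝ} {h : ℝ} {z : ι} : z ∈ A.tie p h ↔ A.f z p = h := by
  simp [tie]

theorem mem_below {p : ℝ × ℝ} {h : ℝ} {z : ι} : z ∈ A.below p h ↔ A.f z p < h := by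
  simp [below]

theorem uniq3 (G : A.Good D) {i j l : ι} (hij : i ≠ j) (hjl : j ≠ l) (hil : i ≠ l)
    {p p' : ℝ × ℝ} (h1 : A.f i p = A.f j p) (h2 : A.f j p = A.f l p)
    (h1' : A.f i p' = A.f j p') (h2' : A.f j p' = A.f l p') : p = p' := by
  have hd := G.h3 i j l hij hjl hil p h1 h2
  simp only [f, det] at *
  have e1 : ((A.a i - A.a j) * (A.b l - A.b j) - (A.a l - A.a j) * (A.b i - A.b j)) *
      (p.1 - p'.1) = 0 := by
    linear_combination (A.b l - A.b j) * (h1 - h1') + (A.b i - A.b j) * (h2 - h2')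
  have e2 : ((A.a i - A.a j) * (A.b l - A.b j) - (A.a l - A.a j) * (A.b i - A.b j)) *
      (p.2 - p'.2) = 0 := by
    linear_combination -(A.a l - A.a j) * (h1 - h1') - (A.a i - A.a j) * (h2 - h2')
  have f1 : p.1 - p'.1 = 0 := by
    rcases mul_eq_zero.mp e1 with h | h
    · exact absurd h hd
    · exact h
  have f2 : p.2 - p'.2 = 0 := by
    rcases mul_eq_zero.mp e2 with h | h
    · exact absurd h hd
    · exact h
  exact Prod.ext (by linarith) (by linarith)

theorem tie_unique (G : A.Good D) {T : Finset ι} (hT : T.card = 3) {p p' : ℝ × ℝ} {h h' : ℝ}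
    (h1 : A.tie p h = T) (h2 : ∀ i ∈ T, A.f i p' = h') : p = p' ∧ h = h' := by
  obtain ⟨i, j, l, hij, hil, hjl, rfl⟩ := card_eq_three.mp hT
  have a1 : A.f i p = h := mem_tie.mp (by rw [h1]; simp)
  have a2 : A.f j p = h := mem_tie.mp (by rw [h1]; simp)
  have a3 : A.f l p = h := mem_tie.mp (by rw [h1]; simp)
  have b1 : A.f i p' = h' := h2 i (by simp)
  have b2 : A.f j p' = h' := h2 j (by simp)
  have b3 : A.f l p' = h' := h2 l (by simp)
  have : p = p' := uniq3 G hij hjl hil (by rw [a1, a2]) (by rw [a2, a3]) (by rw [b1, b2])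
    (by rw [b2, b3])
  subst this
  exact ⟨rfl, by rw [← a1, ← b1]⟩

omit [Fintype ι] in
theorem sorted3 (b : ι → ℝ) (hb : Function.Injective b) (T : Finset ι) (hT : T.card = 3) :
    ∃ p q r, T = {p, q, r} ∧ b p < b q ∧ b q < b r := by
  obtain ⟨x, y, z, hxy, hxz, hyz, rfl⟩ := card_eq_three.mp hT
  have h1 : b x ≠ b y := fun h => hxy (hb h)
  have h2 : b x ≠ b z := fun h => hxz (hb h)
  have h3 : b y ≠ b z := fun h => hyz (hb h)
  rcases lt_or_gt_of_ne h1 with h1 | h1 <;> rcases lt_or_gt_of_ne h2 with h2 | h2 <;>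
    rcases lt_or_gt_of_ne h3 with h3 | h3
  · exact ⟨x, y, z, rfl, h1, h3⟩
  · exact ⟨x, z, y, by ext; simp; tauto, h2, h3⟩
  · exact absurd h1 (by linarith)
  · exact ⟨z, x, y, by ext; simp; tauto, h2, h1⟩
  · exact ⟨y, x, z, by ext; simp; tauto, h1, h2⟩
  · exact absurd h1 (by linarith)
  · exact ⟨y, z, x, by ext; simp; tauto, h3, h2⟩
  · exact ⟨z, y, x, by ext; simp; tauto, h3, h1⟩

omit [Fintype ι] in
/-- The linear identity at a vertex. -/
theorem mid_identity {p q r : ι} {P P' : ℝ × ℝ} (h1 : A.f p P = A.f q P)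
    (h2 : A.f r P = A.f q P) :
    (A.b q - A.b p) * (A.f r P' - A.f q P') + (A.b r - A.b q) * (A.f p P' - A.f q P') =
      A.det p q r * (P'.1 - P.1) := by
  simp only [f, det] at *
  linear_combination (A.b q - A.b p) * h2 + (A.b r - A.b q) * h1

variable (A) in
/-- The vertex of `T` is the extremal point (leftmost if `s`, rightmost otherwise) of the region
of `R`. -/
def Ext (T R : Finset ι) (s : Bool) : Prop :=
  ∃ p h, A.tie p h = T ∧ A.below p h ⊆ R ∧ R ⊆ A.below p h ∪ T ∧ ¬ T ⊆ R ∧
    ∀ p', A.InReg R p' → (if s then p.1 ≤ p'.1 else p'.1 ≤ p.1) ∧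
      (p'.1 = p.1 → ∀ i ∈ T, ∀ j ∈ T, A.f i p' = A.f j p')

theorem inReg_of {T R : Finset ι} {p : ℝ × ℝ} {h : ℝ} (h1 : A.tie p h = T)
    (h2 : A.below p h ⊆ R) (h3 : R ⊆ A.below p h ∪ T) : A.InReg R p := by
  intro i hi j hj
  have hi' := h3 hi
  have hj' : j ∉ A.below p h := fun hh => hj (h2 hh)
  rw [mem_below, not_lt] at hj'
  rcases mem_union.mp hi' with h | h
  · exact (mem_below.mp h).le.trans hj'
  · rw [← h1, mem_tie] at h
    rw [h]
    exact hj'

theorem Ext.unique (G : A.Good D) {T T' R : Finset ι} {s : Bool} (hT : T.card = 3)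
    (h : A.Ext T R s) (h' : A.Ext T' R s) : T = T' := by
  obtain ⟨p, v, a1, a2, a3, a4, a5⟩ := h
  obtain ⟨p', v', b1, b2, b3, b4, b5⟩ := h'
  have hp := inReg_of a1 a2 a3
  have hp' := inReg_of b1 b2 b3
  have c1 := (a5 p' hp').1
  have c2 := (b5 p hp).1
  have hx : p'.1 = p.1 := by
    cases s
    · simp at c1 c2
      exact le_antisymm c1 c2
    · simp at c1 c2
      exact le_antisymm c2 c1
  have htie := (a5 p' hp').2 hx
  -- the point is the same
  obtain ⟨i, j, l, hij, hil, hjl, hTe⟩ := card_eq_three.mp hT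
  have hiT : i ∈ T := by rw [hTe]; simp
  have hpp := tie_unique G hT (p' := p') (h' := A.f i p') a1 (fun k hk => htie k hk i hiT)
  obtain ⟨hpp, -⟩ := hpp
  subst hpp
  rcases lt_trichotomy v v' with hlt | heq | hgt
  · exfalso
    apply a4
    intro z hz
    apply b2
    rw [← a1, mem_tie] at hz
    rw [mem_below, hz]
    exact hlt
  · rw [← a1, ← b1, heq]
  · exfalso
    apply b4
    intro z hz
    apply a2
    rw [← b1, mem_tie] at hz
    rw [mem_below, hz]
    exact hgt

theorem Ext.exists (G : A.Good D) {T : Finset ι} {k : ℕ} (hT : T ∈ A.V k) :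
    (∃ R ∈ A.Reg (k + 1), ∃ s, A.Ext T R s) ∧ (∃ R ∈ A.Reg (k + 2), ∃ s, A.Ext T R s) := by
  simp only [V, mem_filter, mem_univ, true_and] at hT
  obtain ⟨hT3, P, h, htie, hbel⟩ := hT
  obtain ⟨p, q, r, hTe, hpq, hqr⟩ := sorted3 A.b G.hb T hT3
  have hnpq : p ≠ q := fun hh => by rw [hh] at hpq; exact lt_irrefl _ hpq
  have hnqr : q ≠ r := fun hh => by rw [hh] at hqr; exact lt_irrefl _ hqr
  have hnpr : p ≠ r := fun hh => by rw [hh] at hpq; exact lt_asymm hpq hqr
  have vp : A.f p P = h := mem_tie.mp (by rw [htie, hTe]; simp)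
  have vq : A.f q P = h := mem_tie.mp (by rw [htie, hTe]; simp)
  have vr : A.f r P = h := mem_tie.mp (by rw [htie, hTe]; simp)
  have nb : ∀ z ∈ T, z ∉ A.below P h := by
    intro z hz hzb
    rw [← htie, mem_tie] at hz
    rw [mem_below, hz] at hzb
    exact lt_irrefl _ hzb
  have hpT : p ∈ T := by rw [hTe]; simp
  have hqT : q ∈ T := by rw [hTe]; simp
  have hrT : r ∈ T := by rw [hTe]; simp
  have hdet := G.h3 p q r hnpq hnqr hnpr P (by rw [vp, vq]) (by rw [vq, vr])
  have key := fun P' => mid_identity (A := A) (P := P) (P' := P') (by rw [vp, vq] :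
    A.f p P = A.f q P) (by rw [vr, vq] : A.f r P = A.f q P)
  have w1 : 0 < A.b q - A.b p := by linarith
  have w2 : 0 < A.b r - A.b q := by linarith
  -- the consequences of the identity
  have ctie : ∀ P', (A.b q - A.b p) * (A.f r P' - A.f q P') = 0 →
      (A.b r - A.b q) * (A.f p P' - A.f q P') = 0 → ∀ i ∈ T, ∀ j ∈ T, A.f i P' = A.f j P' := by
    intro P' h1 h2
    have e1 : A.f r P' = A.f q P' := by
      rcases mul_eq_zero.mp h1 with h | h <;> linarith
    have e2 : A.f p P' = A.f q P' := by
      rcases mul_eq_zero.mp h2 with h | h <;> linarith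
    have e3 : ∀ i ∈ T, A.f i P' = A.f q P' := by
      intro i hi
      rw [hTe] at hi
      simp only [mem_insert, mem_singleton] at hi
      rcases hi with rfl | rfl | rfl
      · exact e2
      · rfl
      · exact e1
    intro i hi j hj
    rw [e3 i hi, e3 j hj]
  constructor
  · -- the region containing only the middle plane
    set R := insert q (A.below P h) with hR
    have hpR : p ∉ R := by
      rw [hR, mem_insert]
      rintro (hh | hh)
      · exact hnpq hh
      · exact nb p hpT hh
    have hrR : r ∉ R := by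
      rw [hR, mem_insert]
      rintro (hh | hh)
      · exact hnqr hh.symm
      · exact nb r hrT hh
    have hqR : q ∈ R := by rw [hR]; simp
    have hs1 : A.below P h ⊆ R := subset_insert _ _
    have hs2 : R ⊆ A.below P h ∪ T := by
      intro z hz
      rw [hR, mem_insert] at hz
      rcases hz with rfl | hz
      · exact mem_union_right _ hqT
      · exact mem_union_left _ hz
    refine ⟨R, ?_, decide (0 < A.det p q r), P, h, htie, hs1, hs2, fun hh => hpR (hh hpT), ?_⟩
    · simp only [Reg, mem_filter, mem_univ, true_and]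
      refine ⟨?_, P, inReg_of htie hs1 hs2⟩
      rw [hR, card_insert_of_notMem (nb q hqT), hbel]
    · intro P' hP'
      have i1 := hP' q hqR p hpR
      have i2 := hP' q hqR r hrR
      have k1 := key P'
      have t1 : 0 ≤ (A.b q - A.b p) * (A.f r P' - A.f q P') := mul_nonneg w1.le (by linarith)
      have t2 : 0 ≤ (A.b r - A.b q) * (A.f p P' - A.f q P') := mul_nonneg w2.le (by linarith)
      constructor
      · by_cases hd : 0 < A.det p q r
        · simp only [hd, decide_true, if_true]
          by_contra hcon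
          have : P'.1 - P.1 < 0 := by linarith
          nlinarith
        · have hd' : A.det p q r < 0 := lt_of_le_of_ne (not_lt.mp hd) hdet
          simp only [hd, decide_false, Bool.false_eq_true, if_false]
          by_contra hcon
          have : 0 < P'.1 - P.1 := by linarith
          nlinarith
      · intro hx
        rw [hx, sub_self, mul_zero] at k1
        exact ctie P' (by linarith) (by linarith)
  · -- the region containing the two outer planes
    set R := insert p (insert r (A.below P h)) with hR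
    have hqR : q ∉ R := by
      rw [hR, mem_insert, mem_insert]
      rintro (hh | hh | hh)
      · exact hnpq hh.symm
      · exact hnqr hh
      · exact nb q hqT hh
    have hpR : p ∈ R := by rw [hR]; simp
    have hrR : r ∈ R := by rw [hR]; simp
    have hs1 : A.below P h ⊆ R := by
      intro z hz
      rw [hR]
      exact mem_insert_of_mem (mem_insert_of_mem hz)
    have hs2 : R ⊆ A.below P h ∪ T := by
      intro z hz
      rw [hR, mem_insert, mem_insert] at hz
      rcases hz with rfl | rfl | hz
      · exact mem_union_right _ hpT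
      · exact mem_union_right _ hrT
      · exact mem_union_left _ hz
    refine ⟨R, ?_, decide (A.det p q r < 0), P, h, htie, hs1, hs2, fun hh => hqR (hh hqT), ?_⟩
    · simp only [Reg, mem_filter, mem_univ, true_and]
      refine ⟨?_, P, inReg_of htie hs1 hs2⟩
      rw [hR, card_insert_of_notMem, card_insert_of_notMem (nb r hrT), hbel]
      rw [mem_insert]
      rintro (hh | hh)
      · exact hnpr hh
      · exact nb p hpT hh
    · intro P' hP'
      have i1 := hP' p hpR q hqR
      have i2 := hP' r hrR q hqR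
      have k1 := key P'
      have t1 : (A.b q - A.b p) * (A.f r P' - A.f q P') ≤ 0 :=
        mul_nonpos_of_nonneg_of_nonpos w1.le (by linarith)
      have t2 : (A.b r - A.b q) * (A.f p P' - A.f q P') ≤ 0 :=
        mul_nonpos_of_nonneg_of_nonpos w2.le (by linarith)
      constructor
      · by_cases hd : A.det p q r < 0
        · simp only [hd, decide_true, if_true]
          by_contra hcon
          have : P'.1 - P.1 < 0 := by linarith
          nlinarith
        · have hd' : 0 < A.det p q r := lt_of_le_of_ne (not_lt.mp hd) (Ne.symm hdet)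
          simp only [hd, decide_false, Bool.false_eq_true, if_false]
          by_contra hcon
          have : 0 < P'.1 - P.1 := by linarith
          nlinarith
      · intro hx
        rw [hx, sub_self, mul_zero] at k1
        exact ctie P' (by linarith) (by linarith)

theorem card_of_mem_V {T : Finset ι} {k : ℕ} (hT : T ∈ A.V k) : T.card = 3 := by
  simp only [V, mem_filter, mem_univ, true_and] at hT
  exact hT.1

theorem V_disjoint (G : A.Good D) {k l : ℕ} (hkl : k ≠ l) : Disjoint (A.V k) (A.V l) := by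
  rw [disjoint_left]
  intro T hT hT'
  have hc := card_of_mem_V hT
  simp only [V, mem_filter, mem_univ, true_and] at hT hT'
  obtain ⟨-, p, h, h1, h2⟩ := hT
  obtain ⟨-, p', h', h1', h2'⟩ := hT'
  obtain ⟨e1, e2⟩ := tie_unique G hc h1 (p' := p') (h' := h')
    (fun i hi => by rw [← h1', mem_tie] at hi; exact hi)
  subst e1 e2
  exact hkl (h2 ▸ h2' ▸ rfl)

/-- Vertices of level `0` are at most twice as many as planes. -/
theorem card_V_zero (G : A.Good D) : (A.V 0).card ≤ 2 * (A.Reg 1).card := by
  have h := card_le_card_of_forall_subsingleton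
    (s := A.V 0) (t := A.Reg 1 ×ˢ (univ : Finset Bool)) (fun T Rs => A.Ext T Rs.1 Rs.2)
    (by
      intro T hT
      obtain ⟨R, hR, s, hs⟩ := (Ext.exists G hT).1
      exact ⟨(R, s), mem_product.mpr ⟨hR, mem_univ _⟩, hs⟩)
    (by
      rintro ⟨R, s⟩ - T ⟨hT, h1⟩ T' ⟨_, h2⟩
      exact Ext.unique G (card_of_mem_V hT) h1 h2)
  rw [card_product] at h
  simpa [mul_comm] using h

/-- Vertices of levels `k` and `k + 1` are at most twice as many as regions of order `k + 2`. -/
theorem card_V_add (G : A.Good D) (k : ℕ) :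
    (A.V (k + 1)).card + (A.V k).card ≤ 2 * (A.Reg (k + 2)).card := by
  have h := card_le_card_of_forall_subsingleton
    (s := A.V (k + 1) ∪ A.V k) (t := A.Reg (k + 2) ×ˢ (univ : Finset Bool))
    (fun T Rs => A.Ext T Rs.1 Rs.2)
    (by
      intro T hT
      rcases mem_union.mp hT with hT | hT
      · obtain ⟨R, hR, s, hs⟩ := (Ext.exists G hT).1
        exact ⟨(R, s), mem_product.mpr ⟨hR, mem_univ _⟩, hs⟩
      · obtain ⟨R, hR, s, hs⟩ := (Ext.exists G hT).2
        exact ⟨(R, s), mem_product.mpr ⟨hR, mem_univ _⟩, hs⟩)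
    (by
      rintro ⟨R, s⟩ - T ⟨hT, h1⟩ T' ⟨_, h2⟩
      have c1 : T.card = 3 := by
        rcases mem_union.mp hT with hT | hT <;> exact card_of_mem_V hT
      exact Ext.unique G c1 h1 h2)
  rw [card_product, card_union_of_disjoint (V_disjoint G (by omega))] at h
  simpa [mul_comm] using h

end Arr

end

end Run7.h668
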