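import Pool.Agent.Run7.h668.Arr

/-!
# Lower bounds for the numbers of vertices

Each pair of level at most two lies in two vertices of level `2`, each region of order two (three)
gives two vertices of level `0` (`1`), up to the exceptions inside `D`.
-/

namespace Run7.h668

open Finset

open scoped Classical

noncomputable section

namespace Arr

variable {ι : Type*} {A : Arr ι}

variable (A) in
/-- The direction of the line on which the planes `i` and `j` agree. -/
def dir (i j : ι) : ℝ × ℝ := (A.b j - A.b i, A.a i - A.a j)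

theorem sl_dir (i j : ι) : A.sl i (A.dir i j) = A.sl j (A.dir i j) := by
  simp only [sl, dir]
  ring

theorem sl_dir_det (c i j : ι) :
    A.sl c (A.dir i j) - A.sl i (A.dir i j) = A.det c i j := by
  simp only [sl, dir, det]
  ring

theorem f_seg (i : ι) (P O : ℝ × ℝ) (t : ℝ) :
    A.f i (P + t • (O - P)) = (1 - t) * A.f i P + t * A.f i O := by
  simp only [f, Prod.fst_add, Prod.snd_add, Prod.smul_fst, Prod.smul_snd, smul_eq_mul,
    Prod.fst_sub, Prod.snd_sub]
  ring

variable [Fintype ι] {D : Finset ι}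

theorem dir_ne (G : A.Good D) {i j : ι} (hij : i ≠ j) : A.dir i j ≠ 0 := by
  intro h
  have h1 : A.b j - A.b i = 0 := congrArg Prod.fst h
  exact hij (G.hb (by linarith))

/-- Three tied planes are the only ones. -/
theorem tie_eq (G : A.Good D) {i j l : ι} (hij : i ≠ j) (hil : i ≠ l) (hjl : j ≠ l) {P : ℝ × ℝ}
    {h : ℝ} (h1 : A.f i P = h) (h2 : A.f j P = h) (h3 : A.f l P = h) :
    A.tie P h = {i, j, l} := by
  symm
  apply eq_of_subset_of_card_le
  · intro z hz
    simp only [mem_insert, mem_singleton] at hz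
    rw [mem_tie]
    rcases hz with rfl | rfl | rfl <;> assumption
  · rw [card_eq_three.mpr ⟨i, j, l, hij, hil, hjl, rfl⟩]
    exact G.h4 P h

theorem no_four (G : A.Good D) {i j l m : ι} (hij : i ≠ j) (hil : i ≠ l) (hjl : j ≠ l)
    (him : i ≠ m) (hjm : j ≠ m) (hlm : l ≠ m) {P : ℝ × ℝ} {h : ℝ} (h1 : A.f i P = h)
    (h2 : A.f j P = h) (h3 : A.f l P = h) : A.f m P ≠ h := by
  intro h4
  have := mem_tie.mpr h4
  rw [tie_eq G hij hil hjl h1 h2 h3] at this
  simp only [mem_insert, mem_singleton] at this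
  rcases this with h | h | h
  · exact him h.symm
  · exact hjm h.symm
  · exact hlm h.symm

theorem mem_V_of (G : A.Good D) {i j l : ι} (hij : i ≠ j) (hil : i ≠ l) (hjl : j ≠ l)
    {P : ℝ × ℝ} {h : ℝ} {k : ℕ} (h1 : A.f i P = h) (h2 : A.f j P = h) (h3 : A.f l P = h)
    (hk : (A.below P h).card = k) : ({i, j, l} : Finset ι) ∈ A.V k := by
  simp only [V, mem_filter, mem_univ, true_and]
  exact ⟨card_eq_three.mpr ⟨i, j, l, hij, hil, hjl, rfl⟩, P, h, tie_eq G hij hil hjl h1 h2 h3, hk⟩

theorem mem_V_zero_of (G : A.Good D) {i j l : ι} (hij : i ≠ j) (hil : i ≠ l) (hjl : j ≠ l)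
    {P : ℝ × ℝ} {h : ℝ} (h1 : A.f i P = h) (h2 : A.f j P = h) (h3 : A.f l P = h)
    (hk : ∀ z, z ≠ i → z ≠ j → z ≠ l → h ≤ A.f z P) : ({i, j, l} : Finset ι) ∈ A.V 0 := by
  refine mem_V_of G hij hil hjl h1 h2 h3 ?_
  rw [card_eq_zero, eq_empty_iff_forall_notMem]
  intro z hz
  rw [mem_below] at hz
  by_cases e1 : z = i
  · rw [e1, h1] at hz
    exact lt_irrefl _ hz
  by_cases e2 : z = j
  · rw [e2, h2] at hz
    exact lt_irrefl _ hz
  by_cases e3 : z = l
  · rw [e3, h3] at hz
    exact lt_irrefl _ hz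
  exact absurd (hk z e1 e2 e3) (not_le.mpr hz)

theorem far_ne (G : A.Good D) {i : ι} (hi : i ∉ D) {v : ℝ × ℝ} (hv : v ≠ 0) (p : ι) :
    ∃ z, z ≠ p ∧ A.sl z v < A.sl i v := by
  have h := G.far i hi v hv
  obtain ⟨z, hz, hzp⟩ := exists_mem_ne (by omega : 1 < (D.filter
    (fun z => A.sl z v < A.sl i v)).card) p
  exact ⟨z, hzp, (mem_filter.mp hz).2⟩

theorem far_ne2 (G : A.Good D) {i : ι} (hi : i ∉ D) {v : ℝ × ℝ} (hv : v ≠ 0) (p q : ι) :
    ∃ z, z ≠ p ∧ z ≠ q ∧ A.sl z v < A.sl i v := by
  have h := G.far i hi v hv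
  have hc : ({p, q} : Finset ι).card < (D.filter (fun z => A.sl z v < A.sl i v)).card :=
    lt_of_le_of_lt card_le_two (by omega)
  obtain ⟨z, hz, hzp⟩ := exists_mem_notMem_of_card_lt_card hc
  simp only [mem_insert, mem_singleton, not_or] at hzp
  exact ⟨z, hzp.1, hzp.2, (mem_filter.mp hz).2⟩

/-! ### Regions of order two -/

/-- From a point where `i` and `j` are the two lowest planes and agree, a ray on their common line
ends in a vertex of level `0`. -/
theorem ray_zero (G : A.Good D) {i j : ι} (hij : i ≠ j) {P : ℝ × ℝ} (hP : A.f i P = A.f j P)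
    (hall : ∀ z, z ≠ i → z ≠ j → A.f i P ≤ A.f z P) {v : ℝ × ℝ} (hv : A.sl i v = A.sl j v)
    (hex : ∃ z, A.sl z v < A.sl i v) :
    ∃ z, A.sl z v < A.sl i v ∧ ({i, j, z} : Finset ι) ∈ A.V 0 := by
  obtain ⟨z, hz, t, ht, hb, hzero, hw⟩ := event (univ.filter (fun z => z ≠ i ∧ z ≠ j))
    (fun z => A.f z P - A.f i P) (fun z => A.sl z v - A.sl i v)
    (by
      intro z hz
      simp only [mem_filter, mem_univ, true_and] at hz
      linarith [hall z hz.1 hz.2])
    (by
      obtain ⟨z, hz⟩ := hex
      refine ⟨z, ?_, by linarith⟩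
      simp only [mem_filter, mem_univ, true_and]
      constructor
      · rintro rfl
        exact lt_irrefl _ hz
      · rintro rfl
        rw [hv] at hz
        exact lt_irrefl _ hz)
  simp only [mem_filter, mem_univ, true_and] at hz hw
  refine ⟨z, by linarith, ?_⟩
  have e1 := A.f_add i P v t
  have e2 := A.f_add j P v t
  have e3 := A.f_add z P v t
  refine mem_V_zero_of G hij (Ne.symm hz.1) (Ne.symm hz.2) (P := P + t • v)
    (h := A.f i (P + t • v)) rfl ?_ ?_ ?_
  · rw [e1, e2, hP, hv]
  · rw [e1, e3]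
    linarith
  · intro w w1 w2 _
    have e4 := A.f_add w P v t
    have := hw w ⟨w1, w2⟩
    rw [e1, e4]
    linarith

/-- In a closed region of order two there is a point at which the two planes agree. -/
theorem exists_pair_point (G : A.Good D) {i j : ι} {P : ℝ × ℝ}
    (hall : ∀ z, z ≠ i → z ≠ j → A.f i P ≤ A.f z P ∧ A.f j P ≤ A.f z P) :
    ∃ P', A.f i P' = A.f j P' ∧ ∀ z, z ≠ i → z ≠ j → A.f i P' ≤ A.f z P' := by
  -- the essential case
  have main : ∀ i j : ι, i ≠ j → A.f i P ≤ A.f j P →
      (∀ z, z ≠ i → z ≠ j → A.f j P ≤ A.f z P) →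
      ∃ P', A.f i P' = A.f j P' ∧ ∀ z, z ≠ i → z ≠ j → A.f i P' ≤ A.f z P' := by
    intro i j hij hle hall
    obtain ⟨O, hO⟩ := G.vis j
    have hOi := hO i hij
    set g0 := A.f j P - A.f i P with hg0
    set g1 := A.f i O - A.f j O with hg1
    have hg0' : 0 ≤ g0 := by linarith
    have hg1' : 0 < g1 := by linarith
    have hsum : 0 < g0 + g1 := by linarith
    have ht0 : 0 ≤ g0 / (g0 + g1) := div_nonneg hg0' hsum.le
    have ht1 : g0 / (g0 + g1) ≤ 1 := by
      rw [div_le_one hsum]
      linarith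
    have heq : g0 / (g0 + g1) * (g0 + g1) = g0 := div_mul_cancel₀ _ hsum.ne'
    set t := g0 / (g0 + g1) with ht
    refine ⟨P + t • (O - P), ?_, ?_⟩
    · rw [f_seg, f_seg]
      have : (1 - t) * g0 - t * g1 = 0 := by linarith
      rw [hg0, hg1] at this
      linarith
    · intro z zi zj
      have h1 := hall z zi zj
      have h2 := hO z zj
      have e : A.f i (P + t • (O - P)) = A.f j (P + t • (O - P)) := by
        rw [f_seg, f_seg]
        have : (1 - t) * g0 - t * g1 = 0 := by linarith
        rw [hg0, hg1] at this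
        linarith
      rw [e, f_seg, f_seg]
      have h3 : 0 ≤ (1 - t) * (A.f z P - A.f j P) := mul_nonneg (by linarith) (by linarith)
      have h4 : 0 ≤ t * (A.f z O - A.f j O) := mul_nonneg ht0 (by linarith)
      nlinarith
  by_cases hij : i = j
  · subst hij
    exact ⟨P, rfl, fun z h1 h2 => (hall z h1 h2).1⟩
  rcases le_total (A.f i P) (A.f j P) with h | h
  · exact main i j hij h (fun z h1 h2 => (hall z h1 h2).2)
  · obtain ⟨P', h1, h2⟩ := main j i (Ne.symm hij) h (fun z h1 h2 => (hall z h2 h1).1)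
    exact ⟨P', h1.symm, fun z z1 z2 => by rw [← h1]; exact h2 z z2 z1⟩

theorem two_V_zero (G : A.Good D) {R : Finset ι} (hR : R ∈ A.Reg 2) (hRD : ¬ R ⊆ D) :
    2 ≤ ((A.V 0).filter (fun T => R ⊆ T)).card := by
  simp only [Reg, mem_filter, mem_univ, true_and] at hR
  obtain ⟨hR2, P, hP⟩ := hR
  obtain ⟨i, j, hij, rfl⟩ := card_eq_two.mp hR2
  obtain ⟨P', h1, h2⟩ := exists_pair_point G (i := i) (j := j) (P := P)
    (fun z zi zj => ⟨hP i (by simp) z (by simp [zi, zj]), hP j (by simp) z (by simp [zi, zj])⟩)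
  have hex : ∀ v : ℝ × ℝ, v ≠ 0 → A.sl i v = A.sl j v → ∃ z, A.sl z v < A.sl i v := by
    intro v hv hvij
    by_cases hi : i ∈ D
    · by_cases hj : j ∈ D
      · exact absurd (by
          intro z hz
          simp only [mem_insert, mem_singleton] at hz
          rcases hz with rfl | rfl <;> assumption) hRD
      · obtain ⟨z, -, hz⟩ := far_ne G hj hv i
        exact ⟨z, by rw [hvij]; exact hz⟩
    · obtain ⟨z, -, hz⟩ := far_ne G hi hv i
      exact ⟨z, hz⟩
  have hd := dir_ne G hij
  have hs := sl_dir (A := A) i j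
  have hs' : A.sl i (-A.dir i j) = A.sl j (-A.dir i j) := by rw [sl_neg, sl_neg, hs]
  obtain ⟨z1, hz1, m1⟩ := ray_zero G hij h1 h2 hs (hex _ hd hs)
  obtain ⟨z2, hz2, m2⟩ := ray_zero G hij h1 h2 hs' (hex _ (neg_ne_zero.mpr hd) hs')
  rw [sl_neg, sl_neg] at hz2
  have hne : ({i, j, z1} : Finset ι) ≠ {i, j, z2} := by
    intro he
    have hz : z2 ∈ ({i, j, z1} : Finset ι) := by rw [he]; simp
    simp only [mem_insert, mem_singleton] at hz
    rcases hz with rfl | rfl | rfl
    · linarith
    · linarith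
    · linarith
  have hsub : ({{i, j, z1}, {i, j, z2}} : Finset (Finset ι)) ⊆
      (A.V 0).filter (fun T => ({i, j} : Finset ι) ⊆ T) := by
    intro T hT
    simp only [mem_insert, mem_singleton] at hT
    rw [mem_filter]
    rcases hT with rfl | rfl
    · refine ⟨m1, ?_⟩
      intro w hw
      simp only [mem_insert, mem_singleton] at hw ⊢
      tauto
    · refine ⟨m2, ?_⟩
      intro w hw
      simp only [mem_insert, mem_singleton] at hw ⊢
      tauto
  calc 2 = ({{i, j, z1}, {i, j, z2}} : Finset (Finset ι)).card := (card_pair hne).symm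
    _ ≤ _ := card_le_card hsub

/-- Twice the number of regions of order two (outside `D`) is at most three times the number of
vertices of level zero. -/
theorem card_Reg_two (G : A.Good D) :
    2 * ((A.Reg 2).filter (fun R => ¬ R ⊆ D)).card ≤ 3 * (A.V 0).card := by
  have h := card_mul_le_card_mul (s := (A.Reg 2).filter (fun R => ¬ R ⊆ D)) (t := A.V 0)
    (m := 2) (n := 3) (fun R T => R ⊆ T)
    (by
      intro R hR
      have hR' := mem_filter.mp hR
      exact two_V_zero G hR'.1 hR'.2)
    (by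
      intro T hT
      have hc := card_of_mem_V hT
      refine le_trans (card_le_card (t := T.powersetCard 2) ?_) ?_
      · intro R hR
        rw [bipartiteBelow, mem_filter, mem_filter] at hR
        obtain ⟨⟨hR, -⟩, hRT⟩ := hR
        simp only [Reg, mem_filter, mem_univ, true_and] at hR
        exact mem_powersetCard.mpr ⟨hRT, hR.1⟩
      · rw [card_powersetCard, hc]
        decide)
  linarith

/-! ### Pairs of level at most two -/

theorem ray_two (G : A.Good D) {i j : ι} (hij : i ≠ j) (hi : i ∉ D) {P : ℝ × ℝ}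
    (hP : A.f i P = A.f j P) (hlev : (A.below P (A.f i P)).card ≤ 2) {v : ℝ × ℝ} (hv0 : v ≠ 0)
    (hv : A.sl i v = A.sl j v) :
    ∃ z, A.sl z v < A.sl i v ∧ ({i, j, z} : Finset ι) ∈ A.V 2 := by
  obtain ⟨z, hz, t, ht, hb, hzero, hcard⟩ := walk (univ.filter (fun z => z ≠ i ∧ z ≠ j))
    (fun z => A.f z P - A.f i P) (fun z => A.sl z v - A.sl i v) 2
    (by
      refine le_trans (card_le_card ?_) hlev
      intro z hz
      simp only [mem_filter, mem_univ, true_and] at hz
      rw [mem_below]
      linarith [hz.2])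
    (by
      refine le_trans (G.far i hi v hv0) (card_le_card ?_)
      intro z hz
      simp only [mem_filter, mem_univ, true_and] at hz ⊢
      refine ⟨⟨?_, ?_⟩, by linarith [hz.2]⟩
      · rintro rfl
        exact lt_irrefl _ hz.2
      · rintro rfl
        rw [hv] at hz
        exact lt_irrefl _ hz.2)
    (by
      intro t z hz w hw h1 h2
      by_contra hzw
      simp only [mem_filter, mem_univ, true_and] at hz hw
      have e1 := A.f_add i P v t
      have e2 := A.f_add j P v t
      have e3 := A.f_add z P v t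
      have e4 := A.f_add w P v t
      refine no_four G hij (Ne.symm hz.1) (Ne.symm hz.2) (Ne.symm hw.1) (Ne.symm hw.2) hzw
        (P := P + t • v) (h := A.f i (P + t • v)) rfl ?_ ?_ ?_
      · rw [e1, e2, hP, hv]
      · rw [e1, e3]
        linarith
      · rw [e1, e4]
        linarith)
  simp only [mem_filter, mem_univ, true_and] at hz
  refine ⟨z, by linarith, ?_⟩
  have e1 := A.f_add i P v t
  have e2 := A.f_add j P v t
  have e3 := A.f_add z P v t
  refine mem_V_of G hij (Ne.symm hz.1) (Ne.symm hz.2) (P := P + t • v)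
    (h := A.f i (P + t • v)) rfl ?_ ?_ ?_
  · rw [e1, e2, hP, hv]
  · rw [e1, e3]
    linarith
  · rw [← hcard]
    congr 1
    ext w
    rw [mem_below]
    simp only [mem_filter, mem_univ, true_and]
    have e4 := A.f_add w P v t
    rw [e1, e4]
    constructor
    · intro h
      refine ⟨⟨?_, ?_⟩, by linarith⟩
      · rintro rfl
        exact lt_irrefl _ h
      · rintro rfl
        rw [hP, hv] at h
        exact lt_irrefl _ h
    · rintro ⟨-, h⟩
      linarith

theorem two_V_two (G : A.Good D) {i j : ι} (hij : i ≠ j) (hi : i ∉ D) {P : ℝ × ℝ}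
    (hP : A.f i P = A.f j P) (hlev : (A.below P (A.f i P)).card ≤ 2) :
    2 ≤ ((A.V 2).filter (fun T => ({i, j} : Finset ι) ⊆ T)).card := by
  have hd := dir_ne G hij
  have hs := sl_dir (A := A) i j
  have hs' : A.sl i (-A.dir i j) = A.sl j (-A.dir i j) := by rw [sl_neg, sl_neg, hs]
  obtain ⟨z1, hz1, m1⟩ := ray_two G hij hi hP hlev hd hs
  obtain ⟨z2, hz2, m2⟩ := ray_two G hij hi hP hlev (neg_ne_zero.mpr hd) hs'
  rw [sl_neg, sl_neg] at hz2
  have hne : ({i, j, z1} : Finset ι) ≠ {i, j, z2} := by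
    intro he
    have hz : z2 ∈ ({i, j, z1} : Finset ι) := by rw [he]; simp
    simp only [mem_insert, mem_singleton] at hz
    rcases hz with rfl | rfl | rfl
    · linarith
    · linarith
    · linarith
  have hsub : ({{i, j, z1}, {i, j, z2}} : Finset (Finset ι)) ⊆
      (A.V 2).filter (fun T => ({i, j} : Finset ι) ⊆ T) := by
    intro T hT
    simp only [mem_insert, mem_singleton] at hT
    rw [mem_filter]
    rcases hT with rfl | rfl
    · refine ⟨m1, ?_⟩
      intro w hw
      simp only [mem_insert, mem_singleton] at hw ⊢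
      tauto
    · refine ⟨m2, ?_⟩
      intro w hw
      simp only [mem_insert, mem_singleton] at hw ⊢
      tauto
  calc 2 = ({{i, j, z1}, {i, j, z2}} : Finset (Finset ι)).card := (card_pair hne).symm
    _ ≤ _ := card_le_card hsub

variable (A D) in
/-- The pairs outside `D` of level at most two. -/
def Pairs : Finset (Finset ι) :=
  univ.filter (fun e => ∃ i j, i ≠ j ∧ i ∉ D ∧ e = {i, j} ∧
    ∃ P, A.f i P = A.f j P ∧ (A.below P (A.f i P)).card ≤ 2)

theorem card_Pairs (G : A.Good D) : 2 * (A.Pairs D).card ≤ 3 * (A.V 2).card := by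
  have h := card_mul_le_card_mul (s := A.Pairs D) (t := A.V 2)
    (m := 2) (n := 3) (fun R T => R ⊆ T)
    (by
      intro e he
      simp only [Pairs, mem_filter, mem_univ, true_and] at he
      obtain ⟨i, j, hij, hi, rfl, P, hP, hlev⟩ := he
      exact two_V_two G hij hi hP hlev)
    (by
      intro T hT
      have hc := card_of_mem_V hT
      refine le_trans (card_le_card (t := T.powersetCard 2) ?_) ?_
      · intro R hR
        rw [bipartiteBelow, mem_filter] at hR
        obtain ⟨hR, hRT⟩ := hR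
        simp only [Pairs, mem_filter, mem_univ, true_and] at hR
        obtain ⟨i, j, hij, -, rfl, -⟩ := hR
        exact mem_powersetCard.mpr ⟨hRT, card_pair hij⟩
      · rw [card_powersetCard, hc]
        decide)
  linarith

end Arr

end

end Run7.h668
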