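import Pool.Agent.Run7.h668.Arr2

/-!
# Regions of order three and the final count
-/

namespace Run7.h668

open Finset

open scoped Classical

noncomputable section

namespace Arr

variable {ι : Type*} {A : Arr ι} [Fintype ι] {D : Finset ι}

variable (A) in
/-- The vertex `U` of level one lies on the boundary of the region `T` of order three, where the
plane below the vertex is in `T` and so are two of the planes of `U`. -/
def Rel (T U : Finset ι) : Prop :=
  ∃ p h c, A.tie p h = U ∧ A.below p h = {c} ∧ c ∈ T ∧ T ⊆ insert c U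

/-- The case in which the triple is not a vertex of level zero. -/
theorem ray_one (G : A.Good D) {p q s : ι} (hpq : p ≠ q) (hps : p ≠ s) (hqs : q ≠ s)
    {P : ℝ × ℝ} (h1 : A.f q P = A.f s P) (h2 : A.f p P < A.f q P)
    (h3 : ∀ z, z ≠ p → z ≠ q → z ≠ s → A.f q P ≤ A.f z P)
    (hTD : ¬ ({p, q, s} : Finset ι) ⊆ D) (hT : ({p, q, s} : Finset ι) ∉ A.V 0)
    {v : ℝ × ℝ} (hv0 : v ≠ 0) (hv : A.sl q v = A.sl s v) :
    ∃ z, A.sl z v < A.sl q v ∧ ({q, s, z} : Finset ι) ∈ A.V 1 ∧
      A.Rel {p, q, s} {q, s, z} := by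
  -- if the three planes agree somewhere and nothing is below, we have a vertex of level zero
  have hV : ∀ t : ℝ, A.f p (P + t • v) = A.f q (P + t • v) →
      (∀ z, z ≠ p → z ≠ q → z ≠ s → A.f q (P + t • v) ≤ A.f z (P + t • v)) → False := by
    intro t ht1 ht2
    apply hT
    refine mem_V_zero_of G hpq hps hqs (P := P + t • v) (h := A.f q (P + t • v)) ht1 rfl ?_ ht2
    rw [A.f_add, A.f_add, h1, hv]
  have hex : ∃ z, z ≠ p ∧ A.sl z v < A.sl q v := by
    by_cases hq : q ∈ D
    · by_cases hs : s ∈ D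
      · have hp : p ∉ D := by
          intro hp
          apply hTD
          intro z hz
          simp only [mem_insert, mem_singleton] at hz
          rcases hz with rfl | rfl | rfl <;> assumption
        obtain ⟨z, hzq, hzs, hz⟩ := far_ne2 G hp hv0 q s
        have hzp : z ≠ p := by
          rintro rfl
          exact lt_irrefl _ hz
        by_contra hcon
        push Not at hcon
        have hslp : A.sl q v < A.sl p v := lt_of_le_of_lt (hcon z hzp) hz
        -- the plane `p` crosses
        set t := (A.f q P - A.f p P) / (A.sl p v - A.sl q v) with ht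
        have hd : 0 < A.sl p v - A.sl q v := by linarith
        have ht0 : 0 ≤ t := div_nonneg (by linarith) hd.le
        have hte : t * (A.sl p v - A.sl q v) = A.f q P - A.f p P := div_mul_cancel₀ _ hd.ne'
        refine hV t ?_ ?_
        · rw [A.f_add, A.f_add]
          linarith
        · intro w wp wq ws
          rw [A.f_add, A.f_add]
          have g1 := h3 w wp wq ws
          have g2 := hcon w wp
          nlinarith
      · obtain ⟨z, hzp, hz⟩ := far_ne G hs hv0 p
        exact ⟨z, hzp, by rw [hv]; exact hz⟩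
    · obtain ⟨z, hzp, hz⟩ := far_ne G hq hv0 p
      exact ⟨z, hzp, hz⟩
  obtain ⟨z, hz, t, ht, hb, hzero, hw⟩ := event (univ.filter (fun z => z ≠ p ∧ z ≠ q ∧ z ≠ s))
    (fun z => A.f z P - A.f q P) (fun z => A.sl z v - A.sl q v)
    (by
      intro z hz
      simp only [mem_filter, mem_univ, true_and] at hz
      linarith [h3 z hz.1 hz.2.1 hz.2.2])
    (by
      obtain ⟨z, hzp, hz⟩ := hex
      refine ⟨z, ?_, by linarith⟩
      simp only [mem_filter, mem_univ, true_and]
      refine ⟨hzp, ?_, ?_⟩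
      · rintro rfl
        exact lt_irrefl _ hz
      · rintro rfl
        rw [hv] at hz
        exact lt_irrefl _ hz)
  simp only [mem_filter, mem_univ, true_and] at hz hw
  obtain ⟨hzp, hzq, hzs⟩ := hz
  have e1 := A.f_add q P v t
  have e2 := A.f_add s P v t
  have e3 := A.f_add z P v t
  have e4 := A.f_add p P v t
  -- the plane `p` is still below
  have hbelow : A.f p (P + t • v) < A.f q (P + t • v) := by
    by_contra hcon
    have hcon' : A.f q (P + t • v) ≤ A.f p (P + t • v) := not_lt.mp hcon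
    rw [e1, e4] at hcon'
    have hd : 0 < A.sl p v - A.sl q v := by
      by_contra hd
      have : A.sl p v - A.sl q v ≤ 0 := not_lt.mp hd
      nlinarith
    set t' := (A.f q P - A.f p P) / (A.sl p v - A.sl q v) with ht'
    have hte : t' * (A.sl p v - A.sl q v) = A.f q P - A.f p P := div_mul_cancel₀ _ hd.ne'
    have ht0 : 0 ≤ t' := div_nonneg (by linarith) hd.le
    have htt : t' ≤ t := by
      rw [ht', div_le_iff₀ hd]
      linarith
    refine hV t' ?_ ?_
    · rw [A.f_add, A.f_add]
      linarith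
    · intro w wp wq ws
      rw [A.f_add, A.f_add]
      have g1 := h3 w wp wq ws
      have g2 := hw w ⟨wp, wq, ws⟩
      rcases le_total 0 (A.sl w v - A.sl q v) with g3 | g3
      · nlinarith
      · nlinarith
  have m1 : A.f s (P + t • v) = A.f q (P + t • v) := by rw [e1, e2, h1, hv]
  have m2 : A.f z (P + t • v) = A.f q (P + t • v) := by
    rw [e1, e3]
    linarith
  have hbel : A.below (P + t • v) (A.f q (P + t • v)) = {p} := by
    ext w
    rw [mem_below, mem_singleton]
    constructor
    · intro h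
      by_contra wp
      by_cases wq : w = q
      · rw [wq] at h
        exact lt_irrefl _ h
      by_cases ws : w = s
      · rw [ws, m1] at h
        exact lt_irrefl _ h
      have g2 := hw w ⟨wp, wq, ws⟩
      rw [A.f_add, e1] at h
      linarith
    · rintro rfl
      exact hbelow
  refine ⟨z, by linarith, ?_, ?_⟩
  · refine mem_V_of G hqs (Ne.symm hzq) (Ne.symm hzs) (P := P + t • v)
      (h := A.f q (P + t • v)) rfl m1 m2 ?_
    rw [hbel, card_singleton]
  · refine ⟨P + t • v, A.f q (P + t • v), p, tie_eq G hqs (Ne.symm hzq) (Ne.symm hzs) rfl m1 m2,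
      hbel, by simp, ?_⟩
    intro w hw
    simp only [mem_insert, mem_singleton] at hw ⊢
    tauto

/-- The case in which the triple is a vertex of level zero. -/
theorem ray_one' (G : A.Good D) {c a b : ι} (hca : c ≠ a) (hcb : c ≠ b) (hab : a ≠ b)
    {P : ℝ × ℝ} (h1 : A.f c P = A.f a P) (h2 : A.f b P = A.f a P)
    (h3 : ∀ z, z ≠ c → z ≠ a → z ≠ b → A.f a P ≤ A.f z P)
    (hTD : ¬ ({c, a, b} : Finset ι) ⊆ D) :
    ∃ z, z ≠ c ∧ ({a, b, z} : Finset ι) ∈ A.V 1 ∧ A.Rel {c, a, b} {a, b, z} := by
  -- the direction in which `c` is below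
  have hdet := G.h3 c a b hca hab hcb P h1 h2.symm
  have hdir : ∃ v : ℝ × ℝ, v ≠ 0 ∧ A.sl a v = A.sl b v ∧ A.sl c v < A.sl a v := by
    have hd := dir_ne G hab
    have hs := sl_dir (A := A) a b
    have hs2 := sl_dir_det (A := A) c a b
    rcases lt_or_gt_of_ne hdet with h | h
    · exact ⟨A.dir a b, hd, hs, by linarith⟩
    · refine ⟨-A.dir a b, neg_ne_zero.mpr hd, by rw [sl_neg, sl_neg, hs], ?_⟩
      rw [sl_neg, sl_neg]
      linarith
  obtain ⟨v, hv0, hv, hvc⟩ := hdir
  have hex : ∃ z, z ≠ c ∧ A.sl z v < A.sl a v := by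
    by_cases ha : a ∈ D
    · by_cases hb : b ∈ D
      · have hc : c ∉ D := by
          intro hc
          apply hTD
          intro z hz
          simp only [mem_insert, mem_singleton] at hz
          rcases hz with rfl | rfl | rfl <;> assumption
        obtain ⟨z, hzc, hz⟩ := far_ne G hc hv0 c
        exact ⟨z, hzc, hz.trans hvc⟩
      · obtain ⟨z, hzp, hz⟩ := far_ne G hb hv0 c
        exact ⟨z, hzp, by rw [hv]; exact hz⟩
    · obtain ⟨z, hzp, hz⟩ := far_ne G ha hv0 c
      exact ⟨z, hzp, hz⟩
  obtain ⟨z, hz, t, ht, hb, hzero, hw⟩ := event (univ.filter (fun z => z ≠ c ∧ z ≠ a ∧ z ≠ b))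
    (fun z => A.f z P - A.f a P) (fun z => A.sl z v - A.sl a v)
    (by
      intro z hz
      simp only [mem_filter, mem_univ, true_and] at hz
      linarith [h3 z hz.1 hz.2.1 hz.2.2])
    (by
      obtain ⟨z, hzc, hz⟩ := hex
      refine ⟨z, ?_, by linarith⟩
      simp only [mem_filter, mem_univ, true_and]
      refine ⟨hzc, ?_, ?_⟩
      · rintro rfl
        exact lt_irrefl _ hz
      · rintro rfl
        rw [hv] at hz
        exact lt_irrefl _ hz)
  simp only [mem_filter, mem_univ, true_and] at hz hw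
  obtain ⟨hzc, hza, hzb⟩ := hz
  have e1 := A.f_add a P v t
  have e2 := A.f_add b P v t
  have e3 := A.f_add z P v t
  have e4 := A.f_add c P v t
  have ht' : 0 < t := by
    rcases lt_or_eq_of_le ht with h | h
    · exact h
    · exfalso
      rw [← h] at hzero
      refine no_four G hca hcb hab (Ne.symm hzc) (Ne.symm hza) (Ne.symm hzb) h1 rfl h2 ?_
      linarith
  have hbelow : A.f c (P + t • v) < A.f a (P + t • v) := by
    rw [e1, e4, h1]
    nlinarith
  have m1 : A.f b (P + t • v) = A.f a (P + t • v) := by rw [e1, e2, h2, hv]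
  have m2 : A.f z (P + t • v) = A.f a (P + t • v) := by
    rw [e1, e3]
    linarith
  have hbel : A.below (P + t • v) (A.f a (P + t • v)) = {c} := by
    ext w
    rw [mem_below, mem_singleton]
    constructor
    · intro h
      by_contra wc
      by_cases wa : w = a
      · rw [wa] at h
        exact lt_irrefl _ h
      by_cases wb : w = b
      · rw [wb, m1] at h
        exact lt_irrefl _ h
      have g2 := hw w ⟨wc, wa, wb⟩
      rw [A.f_add, e1] at h
      linarith
    · rintro rfl
      exact hbelow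
  refine ⟨z, hzc, ?_, ?_⟩
  · refine mem_V_of G hab (Ne.symm hza) (Ne.symm hzb) (P := P + t • v)
      (h := A.f a (P + t • v)) rfl m1 m2 ?_
    rw [hbel, card_singleton]
  · refine ⟨P + t • v, A.f a (P + t • v), c, tie_eq G hab (Ne.symm hza) (Ne.symm hzb) rfl m1 m2,
      hbel, by simp, ?_⟩
    intro w hw
    simp only [mem_insert, mem_singleton] at hw ⊢
    tauto

/-- In a region of order three there is a point at which the two highest of the three planes
agree. -/
theorem exists_triple_point (G : A.Good D) {T : Finset ι} (hT : T ∈ A.Reg 3) :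
    ∃ p q s, p ≠ q ∧ p ≠ s ∧ q ≠ s ∧ T = {p, q, s} ∧ ∃ P, A.f q P = A.f s P ∧
      A.f p P ≤ A.f q P ∧ ∀ z, z ≠ p → z ≠ q → z ≠ s → A.f q P ≤ A.f z P := by
  simp only [Reg, mem_filter, mem_univ, true_and] at hT
  obtain ⟨hT3, P, hP⟩ := hT
  -- the highest plane
  have hne : T.Nonempty := card_pos.mp (by omega)
  obtain ⟨s, hs, hmax⟩ := T.exists_max_image (fun i => A.f i P) hne
  have hT2 : (T.erase s).card = 2 := by rw [card_erase_of_mem hs, hT3]
  obtain ⟨O, hO⟩ := G.vis s
  -- the times at which the other two planes become higher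
  have time : ∀ i ∈ T.erase s, ∃ t : ℝ, 0 ≤ t ∧ t ≤ 1 ∧
      (1 - t) * (A.f s P - A.f i P) + t * (A.f s O - A.f i O) = 0 ∧
      ∀ t', 0 ≤ t' → t' ≤ t → 0 ≤ (1 - t') * (A.f s P - A.f i P) +
        t' * (A.f s O - A.f i O) := by
    intro i hi
    have hi' := mem_erase.mp hi
    have h0 := hmax i hi'.2
    have h1 := hO i hi'.1
    set g0 := A.f s P - A.f i P with hg0
    set g1 := A.f i O - A.f s O with hg1
    have hg0' : 0 ≤ g0 := by linarith
    have hg1' : 0 < g1 := by linarith
    have hsum : 0 < g0 + g1 := by linarith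
    have heq : g0 / (g0 + g1) * (g0 + g1) = g0 := div_mul_cancel₀ _ hsum.ne'
    have hg2 : A.f s O - A.f i O = -g1 := by rw [hg1]; ring
    refine ⟨g0 / (g0 + g1), div_nonneg hg0' hsum.le, ?_, ?_, ?_⟩
    · rw [div_le_one hsum]
      linarith
    · rw [hg2]
      linarith
    · intro t' ht0 htt
      rw [hg2]
      have : t' * (g0 + g1) ≤ g0 := by
        rw [le_div_iff₀ hsum] at htt
        exact htt
      linarith
  obtain ⟨x, y, hxy, hTe⟩ := card_eq_two.mp hT2
  have hxT : x ∈ T.erase s := by rw [hTe]; simp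
  have hyT : y ∈ T.erase s := by rw [hTe]; simp
  have hTins : T = insert s (T.erase s) := (insert_erase hs).symm
  -- the essential case: `q` becomes higher first
  have main : ∀ p q, p ≠ q → T.erase s = {p, q} →
      (∃ t : ℝ, 0 ≤ t ∧ t ≤ 1 ∧ (1 - t) * (A.f s P - A.f q P) + t * (A.f s O - A.f q O) = 0 ∧
        0 ≤ (1 - t) * (A.f s P - A.f p P) + t * (A.f s O - A.f p O)) →
      ∃ p q s, p ≠ q ∧ p ≠ s ∧ q ≠ s ∧ T = {p, q, s} ∧ ∃ P, A.f q P = A.f s P ∧
      A.f p P ≤ A.f q P ∧ ∀ z, z ≠ p → z ≠ q → z ≠ s → A.f q P ≤ A.f z P := by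
    intro p q hpq hTpq ⟨t, ht0, ht1, hq, hp⟩
    have hpT : p ∈ T.erase s := by rw [hTpq]; simp
    have hqT : q ∈ T.erase s := by rw [hTpq]; simp
    have hps := (mem_erase.mp hpT).1
    have hqs := (mem_erase.mp hqT).1
    have hTset : T = {p, q, s} := by
      rw [hTins, hTpq]
      ext w
      simp only [mem_insert, mem_singleton]
      tauto
    have eqs : A.f q (P + t • (O - P)) = A.f s (P + t • (O - P)) := by
      rw [f_seg, f_seg]
      linarith
    refine ⟨p, q, s, hpq, hps, hqs, hTset, P + t • (O - P), eqs, ?_, ?_⟩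
    · rw [eqs, f_seg, f_seg]
      linarith
    · intro z zp zq zs
      have hzT : z ∉ T := by rw [hTset]; simp [zp, zq, zs]
      have g1 := hP s hs z hzT
      have g2 := hO z zs
      rw [eqs, f_seg, f_seg]
      have g3 : 0 ≤ (1 - t) * (A.f z P - A.f s P) := mul_nonneg (by linarith) (by linarith)
      have g4 : 0 ≤ t * (A.f z O - A.f s O) := mul_nonneg ht0 (by linarith)
      nlinarith
  obtain ⟨tx, x0, x1, x2, x3⟩ := time x hxT
  obtain ⟨ty, y0, y1, y2, y3⟩ := time y hyT
  rcases le_total tx ty with h | h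
  · exact main y x (Ne.symm hxy) (by rw [hTe, pair_comm]) ⟨tx, x0, x1, x2, y3 tx x0 h⟩
  · exact main x y hxy hTe ⟨ty, y0, y1, y2, x3 ty y0 h⟩

theorem two_V_one (G : A.Good D) {T : Finset ι} (hT : T ∈ A.Reg 3) (hTD : ¬ T ⊆ D)
    (hT0 : T ∉ A.V 0) : 2 ≤ ((A.V 1).filter (fun U => A.Rel T U)).card := by
  obtain ⟨p, q, s, hpq, hps, hqs, rfl, P, h1, h2, h3⟩ := exists_triple_point G hT
  have hlt : A.f p P < A.f q P := by
    rcases lt_or_eq_of_le h2 with h | h
    · exact h
    · exfalso
      exact hT0 (mem_V_zero_of G hpq hps hqs h rfl h1.symm h3)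
  have hd := dir_ne G hqs
  have hs := sl_dir (A := A) q s
  have hs' : A.sl q (-A.dir q s) = A.sl s (-A.dir q s) := by rw [sl_neg, sl_neg, hs]
  obtain ⟨z1, hz1, m1, r1⟩ := ray_one G hpq hps hqs h1 hlt h3 hTD hT0 hd hs
  obtain ⟨z2, hz2, m2, r2⟩ := ray_one G hpq hps hqs h1 hlt h3 hTD hT0 (neg_ne_zero.mpr hd) hs'
  rw [sl_neg, sl_neg] at hz2
  have hne : ({q, s, z1} : Finset ι) ≠ {q, s, z2} := by
    intro he
    have hz : z2 ∈ ({q, s, z1} : Finset ι) := by rw [he]; simp
    simp only [mem_insert, mem_singleton] at hz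
    rcases hz with rfl | rfl | rfl
    · linarith
    · linarith
    · linarith
  have hsub : ({{q, s, z1}, {q, s, z2}} : Finset (Finset ι)) ⊆
      (A.V 1).filter (fun U => A.Rel {p, q, s} U) := by
    intro T hT
    simp only [mem_insert, mem_singleton] at hT
    rw [mem_filter]
    rcases hT with rfl | rfl
    · exact ⟨m1, r1⟩
    · exact ⟨m2, r2⟩
  calc 2 = ({{q, s, z1}, {q, s, z2}} : Finset (Finset ι)).card := (card_pair hne).symm
    _ ≤ _ := card_le_card hsub

theorem three_V_one (G : A.Good D) {T : Finset ι} (hT0 : T ∈ A.V 0) (hTD : ¬ T ⊆ D) :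
    3 ≤ ((A.V 1).filter (fun U => A.Rel T U)).card := by
  have hc := card_of_mem_V hT0
  simp only [V, mem_filter, mem_univ, true_and] at hT0
  obtain ⟨-, P, h, htie, hbel⟩ := hT0
  rw [card_eq_zero] at hbel
  have hv : ∀ i ∈ T, A.f i P = h := by
    intro i hi
    rw [← htie, mem_tie] at hi
    exact hi
  have hge : ∀ z, h ≤ A.f z P := by
    intro z
    by_contra hcon
    have : z ∈ A.below P h := mem_below.mpr (not_le.mp hcon)
    rw [hbel] at this
    exact notMem_empty _ this
  have hex : ∀ c ∈ T, ∃ U ∈ (A.V 1).filter (fun U => A.Rel T U), c ∉ U ∧ T.erase c ⊆ U := by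
    intro c hcT
    have hT2 : (T.erase c).card = 2 := by rw [card_erase_of_mem hcT, hc]
    obtain ⟨a, b, hab, hTe⟩ := card_eq_two.mp hT2
    have haT : a ∈ T.erase c := by rw [hTe]; simp
    have hbT : b ∈ T.erase c := by rw [hTe]; simp
    obtain ⟨hac, haT'⟩ := mem_erase.mp haT
    obtain ⟨hbc, hbT'⟩ := mem_erase.mp hbT
    have hTset : T = {c, a, b} := by rw [← insert_erase hcT, hTe]
    obtain ⟨z, hzc, m, r⟩ := ray_one' G (Ne.symm hac) (Ne.symm hbc) hab (P := P)
      (by rw [hv c hcT, hv a haT']) (by rw [hv b hbT', hv a haT'])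
      (fun z _ _ _ => by rw [hv a haT']; exact hge z) (by rw [← hTset]; exact hTD)
    refine ⟨{a, b, z}, ?_, ?_, ?_⟩
    · rw [mem_filter]
      refine ⟨m, ?_⟩
      rw [hTset]
      exact r
    · simp only [mem_insert, mem_singleton, not_or]
      exact ⟨Ne.symm hac, Ne.symm hbc, Ne.symm hzc⟩
    · rw [hTe]
      intro w hw
      simp only [mem_insert, mem_singleton] at hw ⊢
      tauto
  choose! U hU1 hU2 hU3 using hex
  rw [← hc]
  refine card_le_card_of_injOn U (fun c hcT => hU1 c hcT) ?_
  intro c hc c' hc' he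
  by_contra hcc
  have h1 : c' ∈ T.erase c := mem_erase.mpr ⟨fun h => hcc h.symm, hc'⟩
  have h2 := hU3 c hc h1
  rw [he] at h2
  exact hU2 c' hc' h2

theorem card_Rel_le (G : A.Good D) {U : Finset ι} (hU : U ∈ A.V 1) (s : Finset (Finset ι))
    (hs : ∀ T ∈ s, T.card = 3) : (s.filter (fun T => A.Rel T U)).card ≤ 3 := by
  have hc := card_of_mem_V hU
  simp only [V, mem_filter, mem_univ, true_and] at hU
  obtain ⟨-, P, h, htie, hbel⟩ := hU
  obtain ⟨c, hcb⟩ := card_eq_one.mp hbel
  have hcU : c ∉ U := by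
    intro hcU
    rw [← htie, mem_tie] at hcU
    have : c ∈ A.below P h := by rw [hcb]; simp
    rw [mem_below, hcU] at this
    exact lt_irrefl _ this
  rw [← hc]
  refine le_trans (card_le_card (t := U.image (fun u => insert c (U.erase u))) ?_) card_image_le
  intro T hT
  obtain ⟨hTs, p', h', c', t1, t2, t3, t4⟩ := mem_filter.mp hT
  have hT3 := hs T hTs
  obtain ⟨e1, e2⟩ := tie_unique G hc htie (p' := p') (h' := h')
    (fun i hi => by rw [← t1, mem_tie] at hi; exact hi)
  subst e1 e2
  have hcc : c' = c := by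
    have : c ∈ ({c'} : Finset ι) := by rw [← t2, hcb]; simp
    exact (mem_singleton.mp this).symm
  subst hcc
  -- `T.erase c` is a two-element subset of `U`
  have hE : T.erase c' ⊆ U := by
    intro w hw
    obtain ⟨w1, w2⟩ := mem_erase.mp hw
    rcases mem_insert.mp (t4 w2) with h | h
    · exact absurd h w1
    · exact h
  have hE2 : (T.erase c').card = 2 := by rw [card_erase_of_mem t3, hT3]
  have hdiff : (U \ T.erase c').card = 1 := by
    rw [card_sdiff_of_subset hE, hE2, hc]
  obtain ⟨u, hu⟩ := card_eq_one.mp hdiff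
  have huU : u ∈ U := by
    have : u ∈ U \ T.erase c' := by rw [hu]; simp
    exact (mem_sdiff.mp this).1
  rw [mem_image]
  refine ⟨u, huU, ?_⟩
  have : U.erase u = T.erase c' := by
    rw [erase_eq, ← hu, Finset.sdiff_sdiff_eq_self hE]
  rw [this, insert_erase t3]

theorem V_zero_subset : A.V 0 ⊆ A.Reg 3 := by
  intro T hT
  have hc := card_of_mem_V hT
  simp only [V, mem_filter, mem_univ, true_and] at hT
  obtain ⟨-, P, h, htie, hbel⟩ := hT
  rw [card_eq_zero] at hbel
  simp only [Reg, mem_filter, mem_univ, true_and]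
  refine ⟨hc, P, ?_⟩
  intro i hi j _
  rw [← htie, mem_tie] at hi
  rw [hi]
  by_contra hcon
  have : j ∈ A.below P h := mem_below.mpr (not_le.mp hcon)
  rw [hbel] at this
  exact notMem_empty _ this

/-- The count of regions of order three. -/
theorem card_Reg_three (G : A.Good D) :
    2 * ((A.Reg 3).filter (fun R => ¬ R ⊆ D)).card +
      ((A.V 0).filter (fun R => ¬ R ⊆ D)).card ≤ 3 * (A.V 1).card := by
  set s := (A.Reg 3).filter (fun R => ¬ R ⊆ D) with hs
  have hs3 : ∀ T ∈ s, T.card = 3 := by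
    intro T hT
    have := (mem_filter.mp hT).1
    simp only [Reg, mem_filter, mem_univ, true_and] at this
    exact this.1
  have h := sum_card_bipartiteAbove_eq_sum_card_bipartiteBelow (s := s) (t := A.V 1)
    (fun T U => A.Rel T U)
  have h1 : ∑ b ∈ A.V 1, (s.bipartiteBelow (fun T U => A.Rel T U) b).card ≤
      (A.V 1).card * 3 := by
    refine sum_le_card_nsmul _ _ 3 ?_
    intro U hU
    exact card_Rel_le G hU s hs3
  have h2 : ∑ a ∈ s, (2 + if a ∈ A.V 0 then 1 else 0) ≤
      ∑ a ∈ s, ((A.V 1).bipartiteAbove (fun T U => A.Rel T U) a).card := by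
    refine sum_le_sum ?_
    intro T hT
    have hT' := mem_filter.mp hT
    by_cases h0 : T ∈ A.V 0
    · simp only [h0, if_true]
      exact three_V_one G h0 hT'.2
    · simp only [h0, if_false, add_zero]
      exact two_V_one G hT'.1 hT'.2 h0
  rw [sum_add_distrib, sum_const, smul_eq_mul, sum_boole, Nat.cast_id] at h2
  have h3 : ((A.V 0).filter (fun R => ¬ R ⊆ D)) ⊆ s.filter (fun a => a ∈ A.V 0) := by
    intro T hT
    obtain ⟨t1, t2⟩ := mem_filter.mp hT
    rw [mem_filter, hs, mem_filter]
    exact ⟨⟨V_zero_subset t1, t2⟩, t1⟩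
  have h4 := card_le_card h3
  linarith

omit [Fintype ι] in
theorem card_filter_sub (s : Finset (Finset ι)) (k : ℕ) (hs : ∀ T ∈ s, T.card = k) :
    s.card ≤ (s.filter (fun R => ¬ R ⊆ D)).card + D.card.choose k := by
  have h1 := card_filter_add_card_filter_not (s := s) (fun R => R ⊆ D)
  have h2 : (s.filter (fun R => R ⊆ D)).card ≤ (D.powersetCard k).card := by
    refine card_le_card ?_
    intro R hR
    obtain ⟨r1, r2⟩ := mem_filter.mp hR
    exact mem_powersetCard.mpr ⟨r2, hs R r1⟩
  rw [card_powersetCard] at h2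
  omega

theorem card_Reg_one : (A.Reg 1).card ≤ Fintype.card ι := by
  have : A.Reg 1 ⊆ (univ : Finset ι).powersetCard 1 := by
    intro R hR
    simp only [Reg, mem_filter, mem_univ, true_and] at hR
    exact mem_powersetCard.mpr ⟨subset_univ _, hR.1⟩
  refine (card_le_card this).trans ?_
  rw [card_powersetCard, Nat.choose_one_right, card_univ]

/-- **The count.**  At most `9 N + C` pairs outside `D` have level at most two. -/
theorem main_count (G : A.Good D) : 2 * (A.Pairs D).card ≤ 18 * Fintype.card ι +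
    12 * D.card.choose 2 + 9 * D.card.choose 3 := by
  have a1 := card_V_zero G
  have a2 := card_Reg_one (A := A)
  have a3 := card_Reg_two G
  have a4 := card_V_add G 0
  have a5 := card_Reg_three G
  have a6 := card_V_add G 1
  have a7 := card_Pairs G
  have b1 := card_filter_sub (D := D) (A.Reg 2) 2 (by
    intro T hT
    simp only [Reg, mem_filter, mem_univ, true_and] at hT
    exact hT.1)
  have b2 := card_filter_sub (D := D) (A.Reg 3) 3 (by
    intro T hT
    simp only [Reg, mem_filter, mem_univ, true_and] at hT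
    exact hT.1)
  have b3 := card_filter_sub (D := D) (A.V 0) 3 (fun T hT => card_of_mem_V hT)
  simp only [zero_add, one_add_one_eq_two, Nat.reduceAdd] at a4 a6
  omega

end Arr

end

end Run7.h668
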