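import Mathlib

/-!
# Geometry of the power diagram and generic weights
-/

namespace Run7.h668

open Finset

open scoped Classical Topology

noncomputable section

/-- The algebraic core of the angle argument. -/
theorem angle_core {a b a' b' : ℝ} (h1 : 3 * a ^ 2 < b ^ 2) (h2 : 3 * a' ^ 2 < b' ^ 2)
    (hbb : 0 < b * b') (h3 : 2 * (a * a' + b * b') < a ^ 2 + b ^ 2)
    (h4 : 2 * (a * a' + b * b') < a' ^ 2 + b' ^ 2) : False := by
  -- `9 (a a')^2 < (b b')^2`
  have k1 : 9 * (a * a') ^ 2 < (b * b') ^ 2 := by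
    have e1 : 0 ≤ a ^ 2 := sq_nonneg a
    have e2 : 0 ≤ a' ^ 2 := sq_nonneg a'
    nlinarith [mul_nonneg e1 e2]
  have k2 : -(b * b') < 3 * (a * a') := by
    have : (3 * (a * a')) ^ 2 < (b * b') ^ 2 := by nlinarith
    have := abs_lt_of_sq_lt_sq this hbb.le
    exact (abs_lt.mp this).1
  -- `a^2 + b^2 < 4/3 b^2`
  rcases le_total (b ^ 2) (b' ^ 2) with h | h
  · have k3 : b ^ 2 ≤ b * b' := by
      have : |b| ≤ |b'| := sq_le_sq.mp h
      have e : b * b' = |b| * |b'| := by rw [← abs_mul, abs_of_pos hbb]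
      rw [e, ← sq_abs b]
      nlinarith [abs_nonneg b, abs_nonneg b']
    nlinarith
  · have k3 : b' ^ 2 ≤ b * b' := by
      have : |b'| ≤ |b| := sq_le_sq.mp h
      have e : b * b' = |b| * |b'| := by rw [← abs_mul, abs_of_pos hbb]
      rw [e, ← sq_abs b']
      nlinarith [abs_nonneg b, abs_nonneg b']
    nlinarith

theorem dir_core {t p E D : ℝ} (ht : 0 < t) (hp : 0 ≤ p) (n1 : 2 * (t * p) < t ^ 2 * E)
    (n2 : 2 * (t * p) < D) : 4 * p ^ 2 < E * D := by
  have n3 : 2 * p < t * E := by
    have h : t * (2 * p) < t * (t * E) := by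
      have e1 : t * (2 * p) = 2 * (t * p) := by ring
      have e2 : t * (t * E) = t ^ 2 * E := by ring
      rw [e1, e2]
      exact n1
    exact lt_of_mul_lt_mul_left h ht.le
  have n4 := mul_lt_mul'' n3 n2 (by positivity) (by positivity)
  have n5 : t * (4 * p ^ 2) < t * (E * D) := by
    have e1 : t * (4 * p ^ 2) = 2 * p * (2 * (t * p)) := by ring
    have e2 : t * (E * D) = t * E * D := by ring
    rw [e1, e2]
    exact n4
  exact lt_of_mul_lt_mul_left n5 ht.le

/-- At most two discs are deeper than `i` and `j` at the point of the segment between the centres of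
`i` and `j` at which the powers agree. -/
theorem card_deeper {κ : Type*} [Fintype κ] (X Y w : κ → ℝ)
    (hM : ∀ z z', z ≠ z' → w z < (X z - X z') ^ 2 + (Y z - Y z') ^ 2)
    {i j : κ} (hij : i ≠ j) {t x y P : ℝ} (ht0 : 0 < t) (ht1 : t < 1)
    (hx : x = X i + t * (X j - X i)) (hy : y = Y i + t * (Y j - Y i))
    (hPi : (X i - x) ^ 2 + (Y i - y) ^ 2 - w i = P)
    (hPj : (X j - x) ^ 2 + (Y j - y) ^ 2 - w j = P) (hP : P < 0) :
    (univ.filter (fun z => (X z - x) ^ 2 + (Y z - y) ^ 2 - w z < P)).card ≤ 2 := by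
  set Z := univ.filter (fun z => (X z - x) ^ 2 + (Y z - y) ^ 2 - w z < P) with hZ
  have hZm : ∀ z ∈ Z, (X z - x) ^ 2 + (Y z - y) ^ 2 - w z < P := by
    intro z hz
    simpa [hZ] using hz
  set q : κ → ℝ := fun z => (X j - X i) * (Y z - y) - (Y j - Y i) * (X z - x) with hq
  set p : κ → ℝ := fun z => (X j - X i) * (X z - x) + (Y j - Y i) * (Y z - y) with hp
  set E : ℝ := (X j - X i) ^ 2 + (Y j - Y i) ^ 2 with hE
  have hlag : ∀ z, p z ^ 2 + q z ^ 2 = E * ((X z - x) ^ 2 + (Y z - y) ^ 2) := by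
    intro z
    simp only [hp, hq, hE]
    ring
  have hEpos : 0 < E := by
    have h1 := hM i j hij
    have h2 : 0 ≤ (X i - x) ^ 2 + (Y i - y) ^ 2 := by positivity
    have h3 : E = (X i - X j) ^ 2 + (Y i - Y j) ^ 2 := by rw [hE]; ring
    linarith
  have hni : ∀ z ∈ Z, z ≠ i := by
    rintro z hz rfl
    have := hZm z hz
    linarith
  have hnj : ∀ z ∈ Z, z ≠ j := by
    rintro z hz rfl
    have := hZm z hz
    linarith
  -- the direction of a deeper disc is close to the normal
  have hdir : ∀ z ∈ Z, 3 * p z ^ 2 < q z ^ 2 := by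
    intro z hz
    have hzP := hZm z hz
    have hD : 4 * p z ^ 2 < E * ((X z - x) ^ 2 + (Y z - y) ^ 2) := by
      rcases le_total 0 (p z) with hpz | hpz
      · have m1 := hM z j (hnj z hz)
        have m2 := hM j z (Ne.symm (hnj z hz))
        have e1 : (X z - X j) ^ 2 + (Y z - Y j) ^ 2 =
            ((X z - x) ^ 2 + (Y z - y) ^ 2) + (1 - t) ^ 2 * E - 2 * ((1 - t) * p z) := by
          simp only [hp, hE, hx, hy]
          ring
        have e2 : (X j - X z) ^ 2 + (Y j - Y z) ^ 2 =
            ((X z - x) ^ 2 + (Y z - y) ^ 2) + (1 - t) ^ 2 * E - 2 * ((1 - t) * p z) := by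
          rw [← e1]
          ring
        have e3 : (X j - x) ^ 2 + (Y j - y) ^ 2 = (1 - t) ^ 2 * E := by
          simp only [hE, hx, hy]
          ring
        have n1 : 2 * ((1 - t) * p z) < (1 - t) ^ 2 * E := by linarith
        have n2 : 2 * ((1 - t) * p z) < (X z - x) ^ 2 + (Y z - y) ^ 2 := by linarith
        exact dir_core (by linarith) hpz n1 n2
      · have m1 := hM z i (hni z hz)
        have m2 := hM i z (Ne.symm (hni z hz))
        have e1 : (X z - X i) ^ 2 + (Y z - Y i) ^ 2 =
            ((X z - x) ^ 2 + (Y z - y) ^ 2) + t ^ 2 * E - 2 * (t * (-p z)) := by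
          simp only [hp, hE, hx, hy]
          ring
        have e2 : (X i - X z) ^ 2 + (Y i - Y z) ^ 2 =
            ((X z - x) ^ 2 + (Y z - y) ^ 2) + t ^ 2 * E - 2 * (t * (-p z)) := by
          rw [← e1]
          ring
        have e3 : (X i - x) ^ 2 + (Y i - y) ^ 2 = t ^ 2 * E := by
          simp only [hE, hx, hy]
          ring
        have n1 : 2 * (t * (-p z)) < t ^ 2 * E := by linarith
        have n2 : 2 * (t * (-p z)) < (X z - x) ^ 2 + (Y z - y) ^ 2 := by linarith
        have n3 := dir_core ht0 (by linarith : 0 ≤ -p z) n1 n2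
        rwa [neg_sq] at n3
    have := hlag z
    linarith
  -- two deeper discs are on different sides
  have hside : ∀ z ∈ Z, ∀ z' ∈ Z, z ≠ z' → ¬ (0 < q z * q z') := by
    intro z hz z' hz' hne hpos
    have m1 := hM z z' hne
    have m2 := hM z' z (Ne.symm hne)
    have u1 := hZm z hz
    have u2 := hZm z' hz'
    have hcb : p z * p z' + q z * q z' =
        E * ((X z - x) * (X z' - x) + (Y z - y) * (Y z' - y)) := by
      simp only [hp, hq, hE]
      ring
    have e1 : (X z - X z') ^ 2 + (Y z - Y z') ^ 2 = (X z - x) ^ 2 + (Y z - y) ^ 2 +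
        ((X z' - x) ^ 2 + (Y z' - y) ^ 2) -
        2 * ((X z - x) * (X z' - x) + (Y z - y) * (Y z' - y)) := by ring
    have e2 : (X z' - X z) ^ 2 + (Y z' - Y z) ^ 2 = (X z - x) ^ 2 + (Y z - y) ^ 2 +
        ((X z' - x) ^ 2 + (Y z' - y) ^ 2) -
        2 * ((X z - x) * (X z' - x) + (Y z - y) * (Y z' - y)) := by ring
    have n1 : 2 * ((X z - x) * (X z' - x) + (Y z - y) * (Y z' - y)) <
        (X z - x) ^ 2 + (Y z - y) ^ 2 := by linarith
    have n2 : 2 * ((X z - x) * (X z' - x) + (Y z - y) * (Y z' - y)) <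
        (X z' - x) ^ 2 + (Y z' - y) ^ 2 := by linarith
    refine angle_core (hdir z hz) (hdir z' hz') hpos ?_ ?_
    · rw [hcb, hlag z]
      have := mul_lt_mul_of_pos_left n1 hEpos
      linarith
    · rw [hcb, hlag z']
      have := mul_lt_mul_of_pos_left n2 hEpos
      linarith
  have hne0 : ∀ z ∈ Z, q z ≠ 0 := by
    intro z hz h0
    have := hdir z hz
    rw [h0] at this
    have := sq_nonneg (p z)
    norm_num at *
    linarith
  have : Z.card ≤ (univ : Finset Bool).card := by
    refine card_le_card_of_injOn (fun z => decide (0 < q z)) (fun _ _ => mem_univ _) ?_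
    intro z hz z' hz' he
    by_contra hne
    refine hside z hz z' hz' hne ?_
    have he' : (0 < q z) ↔ (0 < q z') := by
      have : decide (0 < q z) = decide (0 < q z') := he
      exact decide_eq_decide.mp this
    by_cases h : 0 < q z
    · exact mul_pos h (he'.mp h)
    · have h' : ¬ 0 < q z' := fun hh => h (he'.mpr hh)
      have h1 : q z < 0 := lt_of_le_of_ne (not_lt.mp h) (hne0 z hz)
      have h2 : q z' < 0 := lt_of_le_of_ne (not_lt.mp h') (hne0 z' hz')
      exact mul_pos_of_neg_of_neg h1 h2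
  simpa using this

/-- A nonempty open set of weights contains a point avoiding countably many hyperplanes. -/
theorem exists_generic {κ K : Type*} [Fintype κ] [Countable K] (U : Set (κ → ℝ)) (hU : IsOpen U)
    (hne : U.Nonempty) (L : K → (κ → ℝ) → ℝ) (hc : ∀ k, Continuous (L k))
    (hL : ∀ k, ∃ (i : κ) (m : ℝ), m ≠ 0 ∧ ∀ (w : κ → ℝ) (t : ℝ),
      L k (Function.update w i (w i + t)) = L k w + m * t) :
    ∃ w ∈ U, ∀ k, L k w ≠ 0 := by
  have hd : Dense (⋂ k, {w | L k w ≠ 0}) := by
    apply dense_iInter_of_isOpen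
    · intro k
      exact isOpen_ne_fun (hc k) continuous_const
    · intro k
      rw [dense_iff_inter_open]
      intro V hV ⟨w, hw⟩
      obtain ⟨i, m, hm, hLm⟩ := hL k
      by_cases h0 : L k w = 0
      · have hcont : Continuous (fun t : ℝ => Function.update w i (w i + t)) := by
          exact continuous_const.update i (continuous_const.add continuous_id)
        have h1 : ∀ᶠ t in 𝓝 (0 : ℝ), Function.update w i (w i + t) ∈ V := by
          apply hcont.continuousAt.eventually_mem
          apply hV.mem_nhds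
          simpa using hw
        have h2 : ∀ᶠ t in 𝓝[≠] (0 : ℝ), Function.update w i (w i + t) ∈ V ∧ t ≠ 0 :=
          (h1.filter_mono nhdsWithin_le_nhds).and self_mem_nhdsWithin
        obtain ⟨t, ht1, ht2⟩ := h2.exists
        refine ⟨_, ht1, ?_⟩
        rw [Set.mem_ofPred_eq, hLm, h0, zero_add]
        exact mul_ne_zero hm ht2
      · exact ⟨w, hw, h0⟩
  obtain ⟨w, hw1, hw2⟩ := hd.inter_open_nonempty U hU hne
  exact ⟨w, hw1, fun k => Set.mem_iInter.mp hw2 k⟩

end

end Run7.h668
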