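import Pool.Agent.Run7.h668.Mink

/-!
# The bound for Minkowski arrangements with far away discs
-/

namespace Run7.h668

open Finset

open scoped Classical Topology

noncomputable section

/-- Orientation of three points. -/
def ori {κ : Type*} (a b : κ → ℝ) (i j l : κ) : ℝ :=
  a i * (b j - b l) + a j * (b l - b i) + a l * (b i - b j)

/-- The index type of the genericity conditions. -/
abbrev GenIdx {κ : Type*} (a b : κ → ℝ) : Type _ :=
  {x : κ × κ × κ // x.1 ≠ x.2.1 ∧ x.2.1 ≠ x.2.2 ∧ x.1 ≠ x.2.2} ⊕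
  {x : κ × κ × κ × κ // (x.1 ≠ x.2.2.2 ∧ x.2.1 ≠ x.2.2.2 ∧ x.2.2.1 ≠ x.2.2.2) ∧
    ori a b x.1 x.2.1 x.2.2.1 ≠ 0}

/-- The affine functions of the weights which have to be nonzero. -/
def genL {κ : Type*} (a b q : κ → ℝ) : GenIdx a b → (κ → ℝ) → ℝ
  | Sum.inl x => fun w => (b x.1.2.1 - b x.1.2.2) * (q x.1.1 - w x.1.1) +
      (b x.1.2.2 - b x.1.1) * (q x.1.2.1 - w x.1.2.1) +
      (b x.1.1 - b x.1.2.1) * (q x.1.2.2 - w x.1.2.2)
  | Sum.inr x => fun w => ori a b x.1.2.1 x.1.2.2.1 x.1.2.2.2 * (q x.1.1 - w x.1.1) -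
      ori a b x.1.1 x.1.2.2.1 x.1.2.2.2 * (q x.1.2.1 - w x.1.2.1) +
      ori a b x.1.1 x.1.2.1 x.1.2.2.2 * (q x.1.2.2.1 - w x.1.2.2.1) -
      ori a b x.1.1 x.1.2.1 x.1.2.2.1 * (q x.1.2.2.2 - w x.1.2.2.2)

theorem genL_continuous {κ : Type*} (a b q : κ → ℝ) (k : GenIdx a b) :
    Continuous (genL a b q k) := by
  rcases k with x | x
  · simp only [genL]
    fun_prop
  · simp only [genL]
    fun_prop

theorem genL_slope {κ : Type*} (a b q : κ → ℝ) (hb : Function.Injective b) (k : GenIdx a b) :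
    ∃ (i : κ) (m : ℝ), m ≠ 0 ∧ ∀ (w : κ → ℝ) (t : ℝ),
      genL a b q k (Function.update w i (w i + t)) = genL a b q k w + m * t := by
  rcases k with ⟨⟨i, j, l⟩, h1, h2, h3⟩ | ⟨⟨i, j, l, m⟩, ⟨h1, h2, h3⟩, h4⟩
  · simp only at h1 h2 h3
    refine ⟨i, -(b j - b l), ?_, ?_⟩
    · rw [neg_ne_zero, sub_ne_zero]
      exact fun h => h2 (hb h)
    · intro w t
      simp only [genL]
      rw [Function.update_self, Function.update_of_ne (Ne.symm h1),
        Function.update_of_ne (Ne.symm h3)]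
      ring
  · simp only at h1 h2 h3 h4
    refine ⟨m, ori a b i j l, h4, ?_⟩
    intro w t
    simp only [genL]
    rw [Function.update_self, Function.update_of_ne h1, Function.update_of_ne h2,
      Function.update_of_ne h3]
    ring

/-- The arrangement of the power functions of the discs. -/
def arrOf {κ : Type*} (X Y w : κ → ℝ) (s : ℝ) : Arr κ where
  a := fun i => -2 * X i
  b := fun i => -2 * (Y i + s * X i)
  c := fun i => X i ^ 2 + Y i ^ 2 - w i

theorem arrOf_f {κ : Type*} (X Y w : κ → ℝ) (s : ℝ) (i : κ) (p : ℝ × ℝ) :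
    (arrOf X Y w s).f i p = ((X i - (p.1 + s * p.2)) ^ 2 + (Y i - p.2) ^ 2 - w i) -
      ((p.1 + s * p.2) ^ 2 + p.2 ^ 2) := by
  simp only [Arr.f, arrOf]
  ring

theorem arrOf_good {κ : Type*} [Fintype κ] (X Y ρ w : κ → ℝ) (s : ℝ) (D : Finset κ)
    (hs : Function.Injective (fun i => Y i + s * X i))
    (hM : ∀ i j, i ≠ j → ρ i ^ 2 ≤ (X i - X j) ^ 2 + (Y i - Y j) ^ 2)
    (hfar : ∀ i, i ∉ D → ∀ u v : ℝ, ¬ (u = 0 ∧ v = 0) →
      3 ≤ (D.filter (fun z => X i * u + Y i * v < X z * u + Y z * v)).card)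
    (hw0 : ∀ i, 0 < w i) (hw1 : ∀ i, w i < ρ i ^ 2)
    (hgen : ∀ k, genL (arrOf X Y w s).a (arrOf X Y w s).b (fun i => X i ^ 2 + Y i ^ 2) k w ≠ 0) :
    (arrOf X Y w s).Good D := by
  set A := arrOf X Y w s with hA
  have hb : Function.Injective A.b := by
    intro i j hij
    apply hs
    simp only [hA, arrOf] at hij
    simp only
    linarith
  have hc : ∀ i, A.c i = (X i ^ 2 + Y i ^ 2) - w i := fun i => rfl
  -- three planes
  have h3 : ∀ i j l, i ≠ j → j ≠ l → i ≠ l → ∀ p, A.f i p = A.f j p → A.f j p = A.f l p →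
      ori A.a A.b i j l ≠ 0 := by
    intro i j l hij hjl hil p e1 e2 h0
    have hg := hgen (Sum.inl ⟨(i, j, l), hij, hjl, hil⟩)
    apply hg
    simp only [genL]
    rw [← hc, ← hc, ← hc]
    simp only [Arr.f] at e1 e2
    simp only [ori] at h0
    linear_combination (A.b j - A.b l) * e1 + (A.b j - A.b l) * e2
      + (A.b l - A.b i) * e2 - p.1 * h0
  refine ⟨hb, ?_, ?_, ?_, ?_⟩
  · -- at most three planes meet
    intro p h
    by_contra hcon
    have h4 : 4 ≤ (A.tie p h).card := by omega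
    obtain ⟨T, hT, hT3⟩ := exists_subset_card_eq (by omega : 3 ≤ (A.tie p h).card)
    obtain ⟨m, hm, hmT⟩ := exists_mem_notMem_of_card_lt_card (by omega : T.card < (A.tie p h).card)
    obtain ⟨i, j, l, hij, hil, hjl, rfl⟩ := card_eq_three.mp hT3
    have vi : A.f i p = h := Arr.mem_tie.mp (hT (by simp))
    have vj : A.f j p = h := Arr.mem_tie.mp (hT (by simp))
    have vl : A.f l p = h := Arr.mem_tie.mp (hT (by simp))
    have vm : A.f m p = h := Arr.mem_tie.mp hm
    simp only [mem_insert, mem_singleton, not_or] at hmT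
    have ho := h3 i j l hij hjl hil p (by rw [vi, vj]) (by rw [vj, vl])
    have hg := hgen (Sum.inr ⟨(i, j, l, m), ⟨Ne.symm hmT.1, Ne.symm hmT.2.1, Ne.symm hmT.2.2⟩,
      ho⟩)
    apply hg
    simp only [genL]
    rw [← hc, ← hc, ← hc, ← hc]
    simp only [Arr.f] at vi vj vl vm
    simp only [ori]
    linear_combination
      (A.a j * (A.b l - A.b m) + A.a l * (A.b m - A.b j) + A.a m * (A.b j - A.b l)) * vi -
      (A.a i * (A.b l - A.b m) + A.a l * (A.b m - A.b i) + A.a m * (A.b i - A.b l)) * vj +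
      (A.a i * (A.b j - A.b m) + A.a j * (A.b m - A.b i) + A.a m * (A.b i - A.b j)) * vl -
      (A.a i * (A.b j - A.b l) + A.a j * (A.b l - A.b i) + A.a l * (A.b i - A.b j)) * vm
  · intro i j l hij hjl hil p e1 e2 h0
    apply h3 i j l hij hjl hil p e1 e2
    simp only [Arr.det] at h0
    simp only [ori]
    linear_combination -h0
  · -- visibility
    intro i
    refine ⟨(X i - s * Y i, Y i), ?_⟩
    intro j hji
    rw [hA, arrOf_f, arrOf_f]
    have h1 := hM j i hji
    have h2 := hw1 j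
    have h4 := hw0 i
    simp only
    have e : X i - s * Y i + s * Y i = X i := by ring
    rw [e]
    have e2 : (X i - X i) ^ 2 + (Y i - Y i) ^ 2 = 0 := by ring
    rw [e2]
    linarith
  · -- far away
    intro i hi v hv
    have hv' : ¬ (v.1 + s * v.2 = 0 ∧ v.2 = 0) := by
      rintro ⟨h1, h2⟩
      apply hv
      rw [h2, mul_zero, add_zero] at h1
      exact Prod.ext h1 h2
    refine le_trans (hfar i hi (v.1 + s * v.2) v.2 hv') (card_le_card ?_)
    intro z hz
    obtain ⟨z1, z2⟩ := mem_filter.mp hz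
    rw [mem_filter]
    refine ⟨z1, ?_⟩
    simp only [Arr.sl, hA, arrOf]
    linarith

/-- **Minkowski arrangements with far away discs.** -/
theorem level_bound {κ : Type*} [Fintype κ] (X Y ρ : κ → ℝ) (D : Finset κ) (hρ : ∀ i, 0 < ρ i)
    (hM : ∀ i j, i ≠ j → ρ i ^ 2 ≤ (X i - X j) ^ 2 + (Y i - Y j) ^ 2)
    (hfar : ∀ i, i ∉ D → ∀ u v : ℝ, ¬ (u = 0 ∧ v = 0) →
      3 ≤ (D.filter (fun z => X i * u + Y i * v < X z * u + Y z * v)).card) :
    2 * (EdgesOff X Y ρ D).card ≤ 18 * Fintype.card κ + 12 * D.card.choose 2 +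
      9 * D.card.choose 3 := by
  obtain ⟨s, hs⟩ := exists_shear X Y (by
    intro i j hij
    have h1 := hM i j hij
    have h2 := hρ i
    have : 0 < ρ i ^ 2 := by positivity
    linarith)
  set a : κ → ℝ := fun i => -2 * X i with ha
  set b : κ → ℝ := fun i => -2 * (Y i + s * X i) with hb
  set q : κ → ℝ := fun i => X i ^ 2 + Y i ^ 2 with hq
  have hbi : Function.Injective b := by
    intro i j hij
    apply hs
    simp only [hb] at hij
    simp only
    linarith
  obtain ⟨w, hw0, hw1, hw2, hgen⟩ := exists_weights X Y ρ hρ hM (genL a b q)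
    (genL_continuous a b q) (genL_slope a b q hbi)
  have G : (arrOf X Y w s).Good D := arrOf_good X Y ρ w s D hs hM hfar hw0 hw1 hgen
  refine le_trans (Nat.mul_le_mul_left 2 (card_le_card ?_)) (Arr.main_count G)
  intro e he
  simp only [EdgesOff, mem_filter, mem_univ, true_and] at he
  obtain ⟨i, j, hij, hi, rfl, hlt⟩ := he
  simp only [Arr.Pairs, mem_filter, mem_univ, true_and]
  refine ⟨i, j, hij, hi, rfl, ?_⟩
  have hlt' := hw2 i j hij hlt
  have m1 := hM i j hij
  have m2 := hM j i (Ne.symm hij)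
  have e1 : (X j - X i) ^ 2 + (Y j - Y i) ^ 2 = (X i - X j) ^ 2 + (Y i - Y j) ^ 2 := by ring
  rw [e1] at m2
  set E := (X i - X j) ^ 2 + (Y i - Y j) ^ 2 with hE
  have hwi := hw0 i
  have hwj := hw0 j
  have hwi' := hw1 i
  have hwj' := hw1 j
  have hEpos : 0 < E := by linarith
  set t := (E + w i - w j) / (2 * E) with ht
  have htE : t * (2 * E) = E + w i - w j := div_mul_cancel₀ _ (by positivity)
  have ht0 : 0 < t := div_pos (by linarith) (by positivity)
  have ht1 : t < 1 := by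
    rw [ht, div_lt_one (by positivity)]
    linarith
  have hPneg : t ^ 2 * E - w i < 0 := by
    have : (t * (2 * E)) ^ 2 < 4 * E * w i := by rw [htE]; exact hlt'
    have h2 : 4 * E * (t ^ 2 * E - w i) < 0 := by
      have : (t * (2 * E)) ^ 2 = 4 * E * (t ^ 2 * E) := by ring
      linarith
    by_contra hcon
    have := mul_nonneg (by positivity : (0 : ℝ) ≤ 4 * E) (not_lt.mp hcon)
    linarith
  set x := X i + t * (X j - X i) with hx
  set y := Y i + t * (Y j - Y i) with hy
  have pi : (X i - x) ^ 2 + (Y i - y) ^ 2 - w i = t ^ 2 * E - w i := by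
    rw [hx, hy, hE]
    ring
  have pj : (X j - x) ^ 2 + (Y j - y) ^ 2 - w j = t ^ 2 * E - w i := by
    have : (X j - x) ^ 2 + (Y j - y) ^ 2 = (1 - t) ^ 2 * E := by
      rw [hx, hy, hE]
      ring
    rw [this]
    have : (1 - t) ^ 2 * E = E - t * (2 * E) + t ^ 2 * E := by ring
    rw [this, htE]
    ring
  have hcard := card_deeper X Y w (by
    intro z z' hzz
    have := hM z z' hzz
    have := hw1 z
    linarith) hij ht0 ht1 hx hy pi pj hPneg
  refine ⟨(x - s * y, y), ?_, ?_⟩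
  · rw [arrOf_f, arrOf_f]
    simp only
    have e : x - s * y + s * y = x := by ring
    rw [e, pi, pj]
  · refine le_trans (card_le_card ?_) hcard
    intro z hz
    rw [Arr.mem_below, arrOf_f, arrOf_f] at hz
    simp only at hz
    have e : x - s * y + s * y = x := by ring
    rw [e, pi] at hz
    simp only [mem_filter, mem_univ, true_and]
    linarith

end

end Run7.h668
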