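import Pool.Agent.Run7.h668.Arr3
import Pool.Agent.Run7.h668.Geom

/-!
# Minkowski arrangements of discs

No disc contains the centre of another one.
-/

namespace Run7.h668

open Finset

open scoped Classical Topology

noncomputable section

/-- The pairs of discs which intersect and are not both in `D`. -/
def EdgesOff {κ : Type*} [Fintype κ] (X Y ρ : κ → ℝ) (D : Finset κ) : Finset (Finset κ) :=
  univ.filter (fun e => ∃ i j, i ≠ j ∧ i ∉ D ∧ e = {i, j} ∧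
    (X i - X j) ^ 2 + (Y i - Y j) ^ 2 < (ρ i + ρ j) ^ 2)

/-- The weights for which everything is strict. -/
theorem exists_weights {κ : Type*} [Fintype κ] (X Y ρ : κ → ℝ) (hρ : ∀ i, 0 < ρ i)
    (hM : ∀ i j, i ≠ j → ρ i ^ 2 ≤ (X i - X j) ^ 2 + (Y i - Y j) ^ 2)
    {K : Type*} [Countable K] (L : K → (κ → ℝ) → ℝ) (hc : ∀ k, Continuous (L k))
    (hL : ∀ k, ∃ (i : κ) (m : ℝ), m ≠ 0 ∧ ∀ (w : κ → ℝ) (t : ℝ),
      L k (Function.update w i (w i + t)) = L k w + m * t) :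
    ∃ w : κ → ℝ, (∀ i, 0 < w i) ∧ (∀ i, w i < ρ i ^ 2) ∧
      (∀ i j, i ≠ j → (X i - X j) ^ 2 + (Y i - Y j) ^ 2 < (ρ i + ρ j) ^ 2 →
        ((X i - X j) ^ 2 + (Y i - Y j) ^ 2 + w i - w j) ^ 2 <
          4 * ((X i - X j) ^ 2 + (Y i - Y j) ^ 2) * w i) ∧
      ∀ k, L k w ≠ 0 := by
  set U1 : Set (κ → ℝ) := {w | (∀ i, 0 < w i) ∧
    (∀ p : κ × κ, (p.1 ≠ p.2 ∧ (X p.1 - X p.2) ^ 2 + (Y p.1 - Y p.2) ^ 2 < (ρ p.1 + ρ p.2) ^ 2) →
        ((X p.1 - X p.2) ^ 2 + (Y p.1 - Y p.2) ^ 2 + w p.1 - w p.2) ^ 2 <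
          4 * ((X p.1 - X p.2) ^ 2 + (Y p.1 - Y p.2) ^ 2) * w p.1)} with hU1
  have hU1o : IsOpen U1 := by
    have e : U1 = (⋂ i : κ, {w : κ → ℝ | 0 < w i}) ∩ ⋂ p : κ × κ,
        ⋂ (_ : p.1 ≠ p.2 ∧ (X p.1 - X p.2) ^ 2 + (Y p.1 - Y p.2) ^ 2 <
          (ρ p.1 + ρ p.2) ^ 2), {w : κ → ℝ |
        ((X p.1 - X p.2) ^ 2 + (Y p.1 - Y p.2) ^ 2 + w p.1 - w p.2) ^ 2 <
          4 * ((X p.1 - X p.2) ^ 2 + (Y p.1 - Y p.2) ^ 2) * w p.1} := by
      ext w
      simp [hU1]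
    rw [e]
    apply IsOpen.inter
    · apply isOpen_iInter_of_finite
      intro i
      exact isOpen_lt continuous_const (continuous_apply i)
    · apply isOpen_iInter_of_finite
      intro p
      apply isOpen_iInter_of_finite
      intro _
      apply isOpen_lt
      · fun_prop
      · fun_prop
  have hmem : (fun i => ρ i ^ 2) ∈ U1 := by
    refine ⟨fun i => by have := hρ i; positivity, ?_⟩
    rintro ⟨i, j⟩ ⟨hij, hlt⟩
    simp only at hij hlt ⊢
    set q := (X i - X j) ^ 2 + (Y i - Y j) ^ 2 with hq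
    have h1 := hM i j hij
    have h2 := hM j i (Ne.symm hij)
    rw [show (X j - X i) ^ 2 + (Y j - Y i) ^ 2 = q by rw [hq]; ring] at h2
    rw [← hq] at h1
    have hi := hρ i
    have hj := hρ j
    have hq0 : 0 ≤ q := by positivity
    set d := Real.sqrt q with hd
    have hdq : d ^ 2 = q := Real.sq_sqrt hq0
    have hd0 : 0 ≤ d := Real.sqrt_nonneg q
    have d1 : ρ i ≤ d := Real.le_sqrt_of_sq_le h1
    have d2 : ρ j ≤ d := Real.le_sqrt_of_sq_le h2
    have d3 : d < ρ i + ρ j := by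
      rw [hd, Real.sqrt_lt' (by linarith)]
      exact hlt
    rw [← hdq]
    have key : 4 * d ^ 2 * ρ i ^ 2 - (d ^ 2 + ρ i ^ 2 - ρ j ^ 2) ^ 2 =
        (ρ j - (d - ρ i)) * (ρ j + (d - ρ i)) * ((d + ρ i - ρ j) * (d + ρ i + ρ j)) := by ring
    have : 0 < (ρ j - (d - ρ i)) * (ρ j + (d - ρ i)) * ((d + ρ i - ρ j) * (d + ρ i + ρ j)) := by
      apply mul_pos
      · exact mul_pos (by linarith) (by linarith)
      · exact mul_pos (by linarith) (by linarith)
    linarith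
  have hcont : Continuous (fun ε : ℝ => (fun i : κ => ρ i ^ 2 - ε)) := by fun_prop
  have hev : ∀ᶠ ε in 𝓝 (0 : ℝ), (fun i : κ => ρ i ^ 2 - ε) ∈ U1 := by
    apply hcont.continuousAt.eventually_mem
    apply hU1o.mem_nhds
    simpa using hmem
  have hev2 : ∀ᶠ ε in 𝓝[>] (0 : ℝ), (fun i : κ => ρ i ^ 2 - ε) ∈ U1 ∧ 0 < ε :=
    (hev.filter_mono nhdsWithin_le_nhds).and self_mem_nhdsWithin
  obtain ⟨ε, hε1, hε2⟩ := hev2.exists
  set U2 : Set (κ → ℝ) := ⋂ i : κ, {w : κ → ℝ | w i < ρ i ^ 2} with hU2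
  have hU2o : IsOpen U2 := by
    apply isOpen_iInter_of_finite
    intro i
    exact isOpen_lt (continuous_apply i) continuous_const
  obtain ⟨w, hw, hwL⟩ := exists_generic (U1 ∩ U2) (hU1o.inter hU2o)
    ⟨_, hε1, by
      rw [hU2, Set.mem_iInter]
      intro i
      show ρ i ^ 2 - ε < ρ i ^ 2
      linarith⟩ L hc hL
  refine ⟨w, hw.1.1, ?_, ?_, hwL⟩
  · intro i
    have := hw.2
    rw [hU2, Set.mem_iInter] at this
    exact this i
  · intro i j hij hlt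
    exact hw.1.2 (i, j) ⟨hij, hlt⟩

/-- A shear which separates finitely many points. -/
theorem exists_shear {κ : Type*} [Finite κ] (X Y : κ → ℝ)
    (hXY : ∀ i j, i ≠ j → (X i - X j) ^ 2 + (Y i - Y j) ^ 2 ≠ 0) :
    ∃ s : ℝ, Function.Injective (fun i => Y i + s * X i) := by
  have hfin : (Set.range (fun p : κ × κ => -(Y p.1 - Y p.2) / (X p.1 - X p.2))).Finite :=
    Set.finite_range _
  obtain ⟨s, hs⟩ := hfin.infinite_compl.nonempty
  refine ⟨s, ?_⟩
  intro i j hij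
  by_contra hne
  simp only at hij
  by_cases hX : X i - X j = 0
  · have hX' : X i = X j := by linarith
    have : Y i - Y j = 0 := by
      rw [hX'] at hij
      linarith
    exact hXY i j hne (by rw [hX, this]; ring)
  · apply hs
    refine ⟨(i, j), ?_⟩
    simp only
    rw [div_eq_iff hX]
    linarith

end

end Run7.h668
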