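import Pool.Agent.Run7.h668.Level

/-!
# Minkowski arrangements: at most `9 n` intersecting pairs
-/

namespace Run7.h668

open Finset

open scoped Classical

noncomputable section

/-- First coordinates of the far away centres. -/
def vx (z : Fin 3 × Fin 3) : ℤ := ((z.2 : ℕ) + 1 : ℤ) * (![0, -1, 1] : Fin 3 → ℤ) z.1

/-- Second coordinates of the far away centres. -/
def vy (z : Fin 3 × Fin 3) : ℤ := ((z.2 : ℕ) + 1 : ℤ) * (![1, -1, -1] : Fin 3 → ℤ) z.1

theorem v_ne_zero : ∀ z : Fin 3 × Fin 3, vx z ≠ 0 ∨ vy z ≠ 0 := by decide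

theorem v_sep : ∀ z z' : Fin 3 × Fin 3, z ≠ z' →
    1 ≤ (vx z - vx z') ^ 2 + (vy z - vy z') ^ 2 := by decide

theorem far_sq {K x : ℝ} (hK : 1 ≤ K) (hx : |x| ≤ K) {n : ℤ} (hn : n ≠ 0) :
    K ^ 2 ≤ (x - 10 * K * n) ^ 2 := by
  have h1 : (1 : ℝ) ≤ |(n : ℝ)| := by
    have : (1 : ℤ) ≤ |n| := Int.one_le_abs hn
    exact_mod_cast this
  have h2 : K ≤ |x - 10 * K * n| := by
    have h3 : |10 * K * (n : ℝ)| = 10 * K * |(n : ℝ)| := by
      rw [abs_mul, abs_of_pos (by linarith : 0 < 10 * K)]
    have h4 := abs_sub_abs_le_abs_sub (10 * K * (n : ℝ)) x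
    rw [abs_sub_comm] at h4
    nlinarith
  have h5 : |K| ≤ |x - 10 * K * n| := by
    rw [abs_of_pos (by linarith : 0 < K)]
    exact h2
  exact sq_le_sq.mpr h5

theorem exists_bound {ι : Type*} [Fintype ι] (X Y ρ : ι → ℝ) :
    ∃ K : ℝ, 1 ≤ K ∧ ∀ i, |X i| ≤ K ∧ |Y i| ≤ K ∧ |ρ i| ≤ K := by
  refine ⟨1 + ∑ i, (|X i| + |Y i| + |ρ i|), ?_, ?_⟩
  · have : 0 ≤ ∑ i, (|X i| + |Y i| + |ρ i|) := sum_nonneg (fun i _ => by positivity)
    linarith
  · intro i
    have h := single_le_sum (f := fun i => |X i| + |Y i| + |ρ i|)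
      (fun i _ => by positivity) (mem_univ i)
    have h1 := abs_nonneg (X i)
    have h2 := abs_nonneg (Y i)
    have h3 := abs_nonneg (ρ i)
    refine ⟨?_, ?_, ?_⟩ <;> linarith

theorem dirs (u v : ℝ) : ∃ k : Fin 3, (|u| + |v|) / 3 ≤
    ((![0, -1, 1] : Fin 3 → ℤ) k : ℝ) * u + ((![1, -1, -1] : Fin 3 → ℤ) k : ℝ) * v := by
  rcases le_total 0 v with hv | hv
  · rw [abs_of_nonneg hv]
    rcases le_total 0 u with hu | hu
    · rw [abs_of_nonneg hu]
      rcases le_total u (2 * v) with h | h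
      · exact ⟨0, by simp; linarith⟩
      · exact ⟨2, by simp; linarith⟩
    · rw [abs_of_nonpos hu]
      rcases le_total (-u) (2 * v) with h | h
      · exact ⟨0, by simp; linarith⟩
      · exact ⟨1, by simp; linarith⟩
  · rw [abs_of_nonpos hv]
    rcases le_total 0 u with hu | hu
    · rw [abs_of_nonneg hu]
      exact ⟨2, by simp; linarith⟩
    · rw [abs_of_nonpos hu]
      exact ⟨1, by simp; linarith⟩

/-- **Minkowski arrangements**, with an additive constant. -/
theorem mink_const {ι : Type*} [Fintype ι] (X Y ρ : ι → ℝ) (hρ : ∀ i, 0 < ρ i)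
    (hM : ∀ i j, i ≠ j → ρ i ^ 2 ≤ (X i - X j) ^ 2 + (Y i - Y j) ^ 2) :
    (EdgesOff X Y ρ ∅).card ≤ 9 * Fintype.card ι + 675 := by
  obtain ⟨K, hK, hKb⟩ := exists_bound X Y ρ
  set X' : ι ⊕ (Fin 3 × Fin 3) → ℝ := Sum.elim X (fun z => 10 * K * (vx z : ℝ)) with hX'
  set Y' : ι ⊕ (Fin 3 × Fin 3) → ℝ := Sum.elim Y (fun z => 10 * K * (vy z : ℝ)) with hY'
  set ρ' : ι ⊕ (Fin 3 × Fin 3) → ℝ := Sum.elim ρ (fun _ => 1) with hρ'
  set D : Finset (ι ⊕ (Fin 3 × Fin 3)) := univ.map Function.Embedding.inr with hD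
  have hDc : D.card = 9 := by
    rw [hD, card_map]
    rfl
  have hsq : ∀ i : ι, ∀ z : Fin 3 × Fin 3,
      K ^ 2 ≤ (X i - 10 * K * (vx z : ℝ)) ^ 2 + (Y i - 10 * K * (vy z : ℝ)) ^ 2 := by
    intro i z
    rcases v_ne_zero z with h | h
    · have := far_sq hK (hKb i).1 h
      have := sq_nonneg (Y i - 10 * K * (vy z : ℝ))
      linarith
    · have := far_sq hK (hKb i).2.1 h
      have := sq_nonneg (X i - 10 * K * (vx z : ℝ))
      linarith
  have hρK : ∀ i, ρ i ^ 2 ≤ K ^ 2 := by
    intro i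
    apply sq_le_sq.mpr
    rw [abs_of_pos (by linarith : 0 < K)]
    exact (hKb i).2.2
  have hmain := level_bound X' Y' ρ' D
    (by
      rintro (i | z)
      · exact hρ i
      · exact one_pos)
    (by
      rintro (i | z) (j | z') hne
      · exact hM i j (fun h => hne (by rw [h]))
      · exact (hρK i).trans (hsq i z')
      · have h1 := hsq j z
        simp only [hX', hY', hρ', Sum.elim_inl, Sum.elim_inr]
        have e : (10 * K * (vx z : ℝ) - X j) ^ 2 + (10 * K * (vy z : ℝ) - Y j) ^ 2 =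
          (X j - 10 * K * (vx z : ℝ)) ^ 2 + (Y j - 10 * K * (vy z : ℝ)) ^ 2 := by ring
        rw [e]
        nlinarith
      · have h1 := v_sep z z' (fun h => hne (by rw [h]))
        simp only [hX', hY', hρ', Sum.elim_inr]
        have h2 : (1 : ℝ) ≤ ((vx z : ℝ) - vx z') ^ 2 + ((vy z : ℝ) - vy z') ^ 2 := by
          exact_mod_cast h1
        have e : (10 * K * (vx z : ℝ) - 10 * K * (vx z' : ℝ)) ^ 2 +
            (10 * K * (vy z : ℝ) - 10 * K * (vy z' : ℝ)) ^ 2 =
            (10 * K) ^ 2 * (((vx z : ℝ) - vx z') ^ 2 + ((vy z : ℝ) - vy z') ^ 2) := by ring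
        rw [e]
        nlinarith)
    (by
      rintro (i | z) hi u v huv
      · obtain ⟨k, hk⟩ := dirs u v
        have hpos : 0 < |u| + |v| := by
          rcases not_and_or.mp huv with h | h
          · have := abs_pos.mpr h
            have := abs_nonneg v
            linarith
          · have := abs_pos.mpr h
            have := abs_nonneg u
            linarith
        have hinj : Function.Injective (fun s : Fin 3 =>
            (Sum.inr (k, s) : ι ⊕ (Fin 3 × Fin 3))) := by
          intro s s' h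
          simpa using h
        have hc : ((univ : Finset (Fin 3)).map ⟨_, hinj⟩).card = 3 := by
          rw [card_map]
          rfl
        refine le_trans hc.ge (card_le_card ?_)
        intro z hz
        rw [mem_map] at hz
        obtain ⟨s, -, rfl⟩ := hz
        rw [mem_filter]
        refine ⟨by simp [hD], ?_⟩
        simp only [hX', hY', Sum.elim_inl, Sum.elim_inr, Function.Embedding.coeFn_mk, vx, vy]
        push_cast
        set g := ((![0, -1, 1] : Fin 3 → ℤ) k : ℝ) * u + ((![1, -1, -1] : Fin 3 → ℤ) k : ℝ) * v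
          with hg
        have e : 10 * K * ((((s : ℕ) : ℝ) + 1) * ((![0, -1, 1] : Fin 3 → ℤ) k : ℝ)) * u +
            10 * K * ((((s : ℕ) : ℝ) + 1) * ((![1, -1, -1] : Fin 3 → ℤ) k : ℝ)) * v =
            10 * K * (((s : ℕ) : ℝ) + 1) * g := by
          rw [hg]
          ring
        rw [e]
        have h1 : X i * u ≤ K * |u| := by
          calc X i * u ≤ |X i * u| := le_abs_self _
            _ = |X i| * |u| := abs_mul _ _
            _ ≤ K * |u| := mul_le_mul_of_nonneg_right (hKb i).1 (abs_nonneg u)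
        have h2 : Y i * v ≤ K * |v| := by
          calc Y i * v ≤ |Y i * v| := le_abs_self _
            _ = |Y i| * |v| := abs_mul _ _
            _ ≤ K * |v| := mul_le_mul_of_nonneg_right (hKb i).2.1 (abs_nonneg v)
        have h3 : (0 : ℝ) ≤ ((s : ℕ) : ℝ) := Nat.cast_nonneg _
        have h4 : 0 < g := by linarith
        have h5 : 10 * K * g ≤ 10 * K * (((s : ℕ) : ℝ) + 1) * g := by
          have : 0 ≤ 10 * K * ((s : ℕ) : ℝ) * g := by positivity
          nlinarith
        have h6 : K * (|u| + |v|) < 10 * K * g := by nlinarith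
        nlinarith
      · exact absurd (by simp [hD]) hi)
  rw [hDc, Fintype.card_sum, Fintype.card_prod, Fintype.card_fin] at hmain
  have hch2 : Nat.choose 9 2 = 36 := by decide
  have hch3 : Nat.choose 9 3 = 84 := by decide
  rw [hch2, hch3] at hmain
  have hinj : (EdgesOff X Y ρ ∅).card ≤ (EdgesOff X' Y' ρ' D).card := by
    refine card_le_card_of_injOn (fun e => e.map Function.Embedding.inl) ?_ ?_
    · intro e he
      rw [mem_coe] at he ⊢
      simp only [EdgesOff, mem_filter, mem_univ, true_and] at he ⊢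
      obtain ⟨i, j, hij, -, rfl, hlt⟩ := he
      refine ⟨Sum.inl i, Sum.inl j, by simpa using hij, by simp [hD], by ext z; simp, ?_⟩
      simpa [hX', hY', hρ'] using hlt
    · intro e _ e' _ h
      exact map_injective _ h
  omega

/-- **Minkowski arrangements**: among `n` open discs in the plane none of which contains the centre
of another one there are at most `9 n` intersecting pairs. -/
theorem mink_nine {ι : Type*} [Fintype ι] (X Y ρ : ι → ℝ) (hρ : ∀ i, 0 < ρ i)
    (hM : ∀ i j, i ≠ j → ρ i ^ 2 ≤ (X i - X j) ^ 2 + (Y i - Y j) ^ 2) :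
    (EdgesOff X Y ρ ∅).card ≤ 9 * Fintype.card ι := by
  obtain ⟨K, hK, hKb⟩ := exists_bound X Y ρ
  set X' : ι × Fin 676 → ℝ := fun z => X z.1 + 3 * K * ((z.2 : ℕ) : ℝ) with hX'
  set Y' : ι × Fin 676 → ℝ := fun z => Y z.1 with hY'
  set ρ' : ι × Fin 676 → ℝ := fun z => ρ z.1 with hρ'
  have hmain := mink_const X' Y' ρ' (fun z => hρ z.1)
    (by
      rintro ⟨i, k⟩ ⟨j, l⟩ hne
      simp only [hX', hY', hρ']
      by_cases hkl : k = l
      · subst hkl
        have hij : i ≠ j := fun h => hne (by rw [h])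
        have := hM i j hij
        have e : X i + 3 * K * ((k : ℕ) : ℝ) - (X j + 3 * K * ((k : ℕ) : ℝ)) = X i - X j := by
          ring
        rw [e]
        exact this
      · have hkl' : ((k : ℕ) : ℤ) - ((l : ℕ) : ℤ) ≠ 0 := by
          intro h
          apply hkl
          apply Fin.ext
          omega
        have h1 : (1 : ℝ) ≤ |((k : ℕ) : ℝ) - ((l : ℕ) : ℝ)| := by
          have : (1 : ℤ) ≤ |((k : ℕ) : ℤ) - ((l : ℕ) : ℤ)| := Int.one_le_abs hkl'
          exact_mod_cast this
        have h2 : K ≤ |X i + 3 * K * ((k : ℕ) : ℝ) - (X j + 3 * K * ((l : ℕ) : ℝ))| := by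
          have e : X i + 3 * K * ((k : ℕ) : ℝ) - (X j + 3 * K * ((l : ℕ) : ℝ)) =
            3 * K * (((k : ℕ) : ℝ) - ((l : ℕ) : ℝ)) - (X j - X i) := by ring
          rw [e]
          have h3 := abs_sub_abs_le_abs_sub (3 * K * (((k : ℕ) : ℝ) - ((l : ℕ) : ℝ))) (X j - X i)
          have h4 : |3 * K * (((k : ℕ) : ℝ) - ((l : ℕ) : ℝ))| =
              3 * K * |((k : ℕ) : ℝ) - ((l : ℕ) : ℝ)| := by
            rw [abs_mul, abs_of_pos (by linarith : 0 < 3 * K)]
          have h5 : |X j - X i| ≤ 2 * K := by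
            have := abs_sub (X j) (X i)
            have := (hKb i).1
            have := (hKb j).1
            linarith
          nlinarith
        have h6 : ρ i ^ 2 ≤ K ^ 2 := by
          apply sq_le_sq.mpr
          rw [abs_of_pos (by linarith : 0 < K)]
          exact (hKb i).2.2
        have h7 : K ^ 2 ≤ (X i + 3 * K * ((k : ℕ) : ℝ) - (X j + 3 * K * ((l : ℕ) : ℝ))) ^ 2 := by
          apply sq_le_sq.mpr
          rw [abs_of_pos (by linarith : 0 < K)]
          exact h2
        have := sq_nonneg (Y i - Y j)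
        linarith)
  rw [Fintype.card_prod, Fintype.card_fin] at hmain
  have hinj : ((EdgesOff X Y ρ ∅) ×ˢ (univ : Finset (Fin 676))).card ≤
      (EdgesOff X' Y' ρ' ∅).card := by
    refine card_le_card_of_injOn (fun p => p.1.map ⟨fun i => (i, p.2), fun i j h => by
      simpa using h⟩) ?_ ?_
    · rintro ⟨e, k⟩ he
      have he' := (mem_product.mp (mem_coe.mp he)).1
      simp only [EdgesOff, mem_filter, mem_univ, true_and] at he'
      obtain ⟨i, j, hij, -, rfl, hlt⟩ := he'
      rw [mem_coe]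
      simp only [EdgesOff, mem_filter, mem_univ, true_and]
      refine ⟨(i, k), (j, k), by simpa using hij, by simp, by ext z; simp, ?_⟩
      simp only [hX', hY', hρ']
      have e : X i + 3 * K * ((k : ℕ) : ℝ) - (X j + 3 * K * ((k : ℕ) : ℝ)) = X i - X j := by
        ring
      rw [e]
      exact hlt
    · rintro ⟨e, k⟩ he ⟨e', k'⟩ he' h
      simp only at h
      have he1 := (mem_product.mp (mem_coe.mp he)).1
      simp only [EdgesOff, mem_filter, mem_univ, true_and] at he1
      obtain ⟨i, j, hij, -, hee, hlt⟩ := he1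
      have hi : i ∈ e := by rw [hee]; simp
      have h1 : (i, k) ∈ e.map ⟨fun i => (i, k), fun i j h => by simpa using h⟩ :=
        mem_map.mpr ⟨i, hi, rfl⟩
      rw [h, mem_map] at h1
      obtain ⟨i', -, h2⟩ := h1
      have hk : k' = k := congrArg Prod.snd h2
      subst hk
      rw [map_injective _ h]
  rw [card_product, card_univ, Fintype.card_fin] at hinj
  omega

end

end Run7.h668
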