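import Mathlib

/-!
# One-dimensional lemmas for MP_402e48_co

Finite families of affine functions `t ↦ α z + β z * t` on a half-line: the first event, and
the crossing from level `k` to level `k + 1`.
-/

namespace Run7.h668

open Finset

variable {κ : Type*}

/-- The first event: if all members of a finite family of affine functions are nonnegative at `0`
and some member is decreasing, then there is a first moment at which a decreasing member vanishes,
and all members are still nonnegative at this moment. -/
theorem event (s : Finset κ) (α β : κ → ℝ) (h0 : ∀ z ∈ s, 0 ≤ α z)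
    (hex : ∃ z ∈ s, β z < 0) :
    ∃ z ∈ s, ∃ t : ℝ, 0 ≤ t ∧ β z < 0 ∧ α z + β z * t = 0 ∧ ∀ w ∈ s, 0 ≤ α w + β w * t := by
  classical
  set N := s.filter (fun z => β z < 0) with hN
  have hNe : N.Nonempty := by
    obtain ⟨z, hz, hb⟩ := hex
    exact ⟨z, by simp [hN, hz, hb]⟩
  obtain ⟨z, hzN, hmin⟩ := N.exists_min_image (fun z => α z / (-β z)) hNe
  have hz := (mem_filter.mp hzN).1
  have hb := (mem_filter.mp hzN).2
  have hb' : 0 < -β z := by linarith
  have hne : β z ≠ 0 := hb.ne
  refine ⟨z, hz, α z / (-β z), div_nonneg (h0 z hz) hb'.le, hb, ?_, ?_⟩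
  · field_simp
    ring
  · intro w hw
    by_cases hwb : β w < 0
    · have h1 := hmin w (by simp [hN, hw, hwb])
      have hwb' : 0 < -β w := by linarith
      have h1' : α z / (-β z) ≤ α w / (-β w) := h1
      have h2 : α z / (-β z) * (-β w) ≤ α w := by
        rw [le_div_iff₀ hwb'] at h1'
        exact h1'
      linarith [h2, mul_comm (β w) (α z / (-β z))]
    · have h3 : 0 ≤ β w := not_lt.mp hwb
      have h4 : 0 ≤ β w * (α z / (-β z)) := mul_nonneg h3 (div_nonneg (h0 z hz) hb'.le)
      linarith [h0 w hw]

/-- The crossing lemma: if at most `k` members are negative at `0` and at least `k + 1` members are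
decreasing, then a decreasing member vanishes at some moment at which exactly `k` members are
negative. -/
theorem walk (s : Finset κ) (α β : κ → ℝ) (k : ℕ)
    (h0 : (s.filter (fun z => α z < 0)).card ≤ k)
    (hinf : k + 1 ≤ (s.filter (fun z => β z < 0)).card)
    (hgen : ∀ t : ℝ, ∀ z ∈ s, ∀ w ∈ s, α z + β z * t = 0 → α w + β w * t = 0 → z = w) :
    ∃ z ∈ s, ∃ t : ℝ, 0 ≤ t ∧ β z < 0 ∧ α z + β z * t = 0 ∧
      (s.filter (fun w => α w + β w * t < 0)).card = k := by
  classical
  -- the time at which a decreasing function vanishes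
  set ξ : κ → ℝ := fun z => α z / (-β z) with hξ
  have hzero : ∀ z, β z < 0 → α z + β z * ξ z = 0 := by
    intro z hz
    have : β z ≠ 0 := hz.ne
    simp only [hξ]
    field_simp
    ring
  have hneg : ∀ z, β z < 0 → ∀ t, (α z + β z * t < 0 ↔ ξ z < t) := by
    intro z hz t
    have h1 := hzero z hz
    constructor
    · intro h
      by_contra hcon
      have : t ≤ ξ z := not_lt.mp hcon
      nlinarith
    · intro h
      nlinarith
  set G := s.filter (fun z => β z < 0 ∧ 0 ≤ ξ z ∧
    (s.filter (fun w => α w + β w * ξ z < 0)).card ≤ k) with hG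
  -- next decreasing function after a moment `t` with few negatives
  have next : ∀ t : ℝ, 0 ≤ t →
      (∃ z ∈ s, β z < 0 ∧ t < ξ z) →
      ∃ z ∈ s, β z < 0 ∧ t < ξ z ∧ ∀ w ∈ s, β w < 0 → t < ξ w → ξ z ≤ ξ w := by
    intro t _ ⟨z0, hz0, hb0, ht0⟩
    obtain ⟨z, hz, hmin⟩ := (s.filter (fun z => β z < 0 ∧ t < ξ z)).exists_min_image ξ
      ⟨z0, by simp [hz0, hb0, ht0]⟩
    have hz' := mem_filter.mp hz
    exact ⟨z, hz'.1, hz'.2.1, hz'.2.2, fun w hw hwb hwt => hmin w (by simp [hw, hwb, hwt])⟩
  -- G is nonempty
  have hGne : G.Nonempty := by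
    -- some decreasing function is nonnegative at 0
    have hex : ∃ z ∈ s, β z < 0 ∧ 0 ≤ ξ z := by
      by_contra hcon
      push Not at hcon
      have hsub : s.filter (fun z => β z < 0) ⊆ s.filter (fun z => α z < 0) := by
        intro z hz
        have hz' := mem_filter.mp hz
        have h1 := hcon z hz'.1 hz'.2
        have h2 := (hneg z hz'.2 0).mpr h1
        simp only [mul_zero, add_zero] at h2
        simp [hz'.1, h2]
      have := card_le_card hsub
      omega
    obtain ⟨z0, hz0, hb0, ht0⟩ := hex
    obtain ⟨z, hz, hmin⟩ := (s.filter (fun z => β z < 0 ∧ 0 ≤ ξ z)).exists_min_image ξ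
      ⟨z0, by simp [hz0, hb0, ht0]⟩
    have hz' := mem_filter.mp hz
    refine ⟨z, ?_⟩
    simp only [hG, mem_filter]
    refine ⟨hz'.1, hz'.2.1, hz'.2.2, ?_⟩
    refine le_trans (card_le_card ?_) h0
    intro w hw
    have hw' := mem_filter.mp hw
    simp only [mem_filter]
    refine ⟨hw'.1, ?_⟩
    by_cases hwb : β w < 0
    · have h1 := (hneg w hwb _).mp hw'.2
      by_contra hcon
      have h2 : ¬ (ξ w < 0) := by
        intro h
        have := (hneg w hwb 0).mpr h
        simp only [mul_zero, add_zero] at this
        exact hcon this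
      have h3 := hmin w (by simp [hw'.1, hwb, not_lt.mp h2])
      linarith
    · have h3 : 0 ≤ β w := not_lt.mp hwb
      have h4 : 0 ≤ β w * ξ z := mul_nonneg h3 hz'.2.2
      linarith [hw'.2]
  obtain ⟨z, hzG, hmax⟩ := G.exists_max_image ξ hGne
  have hz' := mem_filter.mp hzG
  obtain ⟨hzs, hzb, hz0, hzk⟩ := hz'
  refine ⟨z, hzs, ξ z, hz0, hzb, hzero z hzb, ?_⟩
  by_contra hcon
  have hlt : (s.filter (fun w => α w + β w * ξ z < 0)).card < k := lt_of_le_of_ne hzk hcon
  -- there is a decreasing function vanishing later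
  have hex : ∃ w ∈ s, β w < 0 ∧ ξ z < ξ w := by
    by_contra hc
    push Not at hc
    have hsub : s.filter (fun w => β w < 0) ⊆
        insert z (s.filter (fun w => α w + β w * ξ z < 0)) := by
      intro w hw
      have hw' := mem_filter.mp hw
      rcases lt_or_eq_of_le (hc w hw'.1 hw'.2) with h | h
      · apply mem_insert_of_mem
        simp only [mem_filter]
        exact ⟨hw'.1, (hneg w hw'.2 _).mpr h⟩
      · have h1 := hzero w hw'.2
        rw [h] at h1
        have := hgen (ξ z) w hw'.1 z hzs h1 (hzero z hzb)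
        rw [this]
        exact mem_insert_self _ _
    have h1 := card_le_card hsub
    have h2 := card_insert_le z (s.filter (fun w => α w + β w * ξ z < 0))
    omega
  obtain ⟨y, hys, hyb, hyt, hymin⟩ := next (ξ z) hz0 hex
  have hyG : y ∈ G := by
    simp only [hG, mem_filter]
    refine ⟨hys, hyb, by linarith, ?_⟩
    have hsub : s.filter (fun w => α w + β w * ξ y < 0) ⊆
        insert z (s.filter (fun w => α w + β w * ξ z < 0)) := by
      intro w hw
      have hw' := mem_filter.mp hw
      by_cases hwb : β w < 0
      · have h1 := (hneg w hwb _).mp hw'.2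
        rcases lt_trichotomy (ξ w) (ξ z) with h | h | h
        · apply mem_insert_of_mem
          simp only [mem_filter]
          exact ⟨hw'.1, (hneg w hwb _).mpr h⟩
        · have h2 := hzero w hwb
          rw [h] at h2
          have := hgen (ξ z) w hw'.1 z hzs h2 (hzero z hzb)
          rw [this]
          exact mem_insert_self _ _
        · exact absurd (hymin w hw'.1 hwb h) (not_le.mpr h1)
      · have h3 : 0 ≤ β w := not_lt.mp hwb
        apply mem_insert_of_mem
        simp only [mem_filter]
        refine ⟨hw'.1, ?_⟩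
        have h4 : β w * ξ z ≤ β w * ξ y := mul_le_mul_of_nonneg_left hyt.le h3
        linarith [hw'.2]
    have h1 := card_le_card hsub
    have h2 := card_insert_le z (s.filter (fun w => α w + β w * ξ z < 0))
    omega
  have := hmax y hyG
  linarith

end Run7.h668
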